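import Pool.Agent.Y677.KP.Narrow
import Pool.Agent.TH464.PW.Quad
import Pool.Agent.W182.PW.Lin
import Pool.Agent.TH977.PW.Inst

set_option autoImplicit false

/-!
# Quadratic and linear polynomials at primes
-/

open Polynomial Finset Filter Topology

namespace Pool.Agent.Y677.KP

open Pool.Agent.Y677.KU (G)
open Pool.Agent.W123.RU Pool.Agent.W123.RU.Poly
open Pool.Agent.TH977.PW (N Rough)
open Pool.Agent.Y677.RSZ (InProg Outside)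
open Pool.Agent.TH464.PW (quad quad_eval quad_deg quad_lead quad_irr)
open Pool.Agent.W182.PW (lin lin_eval lin_irr lin_deg lin_lead lin_ne_X)

/-- a prime is rough -/
lemma rough_prime (s m p : ℕ) (hs : 2 ≤ s) (hm : m.Prime) (hp : p.Prime) (hd : p ∣ m) :
    (m : ℝ) ^ (1 / (s : ℝ)) < (p : ℝ) :=
  Pool.Agent.TH977.PW.rpow_lt_dvd s m p hs hm hp hd

/-- small numbers are rough -/
lemma rough_small (s n p : ℕ) (hs : 2 ≤ s) (hn : n < 2) (hp : p.Prime) :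
    (n : ℝ) ^ (1 / (s : ℝ)) < (p : ℝ) := by
  have h1 : (n : ℝ) ≤ 1 := by exact_mod_cast (by omega : n ≤ 1)
  have h2 : (n : ℝ) ^ (1 / (s : ℝ)) ≤ 1 := Real.rpow_le_one (Nat.cast_nonneg n) h1 (by positivity)
  have h3 : (1 : ℝ) < p := by exact_mod_cast hp.one_lt
  linarith

/-- values larger than the argument -/
lemma rough_val (s m v p : ℕ) (hs : 2 ≤ s) (hm : 2 ≤ m) (hv : v.Prime) (hmv : m ≤ v)
    (hp : p.Prime) (hd : p ∣ v) : (m : ℝ) ^ (1 / (s : ℝ)) < (p : ℝ) := by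
  rw [(Nat.prime_dvd_prime_iff_eq hp hv).1 hd]
  exact Pool.Agent.TH977.PW.rpow_lt_of_le s m v hs hm hmv

/-- quadratic polynomials at primes: at most five prime factors -/
theorem quad_p (a b c : ℤ) (ha : 0 < a)
    (hg : ∀ p : ℕ, p.Prime → ¬ ((p : ℤ) ∣ a ∧ (p : ℤ) ∣ b ∧ (p : ℤ) ∣ c))
    (hD : ¬ IsSquare (b ^ 2 - 4 * a * c))
    (hadm : ∀ p : ℕ, p.Prime → ∃ m : ℕ, ¬ p ∣ m ∧ ¬ (p : ℤ) ∣ a * (m : ℤ) ^ 2 + b * m + c)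
    (V : ℕ → ℕ) (hV : ∀ m : ℕ, 2 ≤ m → a * (m : ℤ) ^ 2 + b * m + c = V m)
    (R : ℕ → Set ℕ) (P : Set ℕ) (hPR : P ⊆ R 7)
    (hR : ∀ s : ℕ, 2 ≤ s → ∀ m ∈ R s,
      (∀ p : ℕ, p.Prime → p ∣ m → (m : ℝ) ^ (1 / (s : ℝ)) < (p : ℝ)) ∧
      ∀ p : ℕ, p.Prime → p ∣ V m → (m : ℝ) ^ (1 / (s : ℝ)) < (p : ℝ))
    (hAl : ∀ m : ℕ, m.Prime →
      (∀ p : ℕ, p.Prime → p ∣ m → (m : ℝ) ^ (1 / ((7 : ℕ) : ℝ)) < (p : ℝ)) →
      (∀ p : ℕ, p.Prime → p ∣ V m → (m : ℝ) ^ (1 / ((7 : ℕ) : ℝ)) < (p : ℝ)) →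
      (V m).primeFactorsList.length ≤ 5 → m ∈ P) :
    (∃ κ : ℝ, 0 < κ ∧ ∀ᶠ X : ℕ in atTop, κ * X / Real.log X ^ 2 ≤ N P X (2 * X)) ∧
    (∀ l : ℕ, ∃ B : ℕ, ∀ᶠ X : ℕ in atTop, ∃ u d : ℕ, 1 ≤ d ∧ (d : ℝ) ≤ Real.log X ^ B ∧
        ∀ i < l, u + i * d ∈ P ∧ X < u + i * d ∧ u + i * d ≤ 2 * X) ∧
    ∀ s : ℕ, 2 ≤ s → ∀ θ : ℝ, 0 < θ → ∀ l : ℕ, 2 ≤ l → ∀ ε : ℝ, 0 < ε → ∃ B : ℕ,
      ∀ᶠ X : ℕ in atTop, ∀ Y : ℕ, (X : ℝ) ^ θ ≤ Y → Y ≤ X → ∀ A : Set ℕ, A ⊆ R s →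
        (N (Outside A l (Real.log X ^ B) X (X + Y)) X (X + Y) : ℝ) ≤ ε * Y / Real.log X ^ 2 := by
  have hX : (X : ℤ[X]) ≠ quad a b c := by
    intro h
    have h2 := congrArg natDegree h
    rw [quad_deg a b c ha.ne', natDegree_X] at h2
    omega
  have hs := sys_two (quad a b c) (quad_irr a b c ha.ne' hg hD)
    (by rw [quad_deg a b c ha.ne']; norm_num) (by rw [quad_lead a b c ha.ne']; exact ha) hX
    (fun p hp => by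
      obtain ⟨m, h1, h2⟩ := hadm p hp
      exact ⟨m, h1, by rwa [quad_eval]⟩)
  have he : ∀ m : ℕ, 2 ≤ m → (quad a b c).eval (m : ℤ) = V m := fun m hm => by
    rw [quad_eval, hV m hm]
  refine all_p (quad a b c) hs 5 7 (by norm_num) (count_quad _ hs (quad_deg a b c ha.ne')) R P hPR
    ?_ ?_
  · intro s hs2 m hm
    obtain ⟨h1, h2⟩ := hR s hs2 m hm
    refine ⟨h1, fun p hp hd => ?_⟩
    rcases lt_or_ge m 2 with h3 | h3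
    · exact rough_small s m p hs2 h3 hp
    · refine h2 p hp ?_
      rwa [he m h3, Int.natCast_dvd_natCast] at hd
  · intro m hm h1 h2
    refine hAl m hm (fun p hp hd => rough_prime 7 m p (by norm_num) hm hp hd)
      (fun p hp hd => h1 p hp ?_) ?_
    · rw [he m hm.two_le, Int.natCast_dvd_natCast]
      exact hd
    · rwa [he m hm.two_le, Int.natAbs_natCast] at h2

/-- linear polynomials at primes: at most three prime factors -/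
theorem lin_p (a : ℕ) (b : ℤ) (ha : 0 < a) (hab : IsCoprime (a : ℤ) b) (hX : ¬ (a = 1 ∧ b = 0))
    (hadm : ∀ p : ℕ, p.Prime → ∃ m : ℕ, ¬ p ∣ m ∧ ¬ (p : ℤ) ∣ a * (m : ℤ) + b)
    (V : ℕ → ℕ) (hV : ∀ m : ℕ, 2 ≤ m → a * (m : ℤ) + b = V m)
    (R : ℕ → Set ℕ) (P : Set ℕ) (hPR : P ⊆ R 5)
    (hR : ∀ s : ℕ, 2 ≤ s → ∀ m ∈ R s,
      (∀ p : ℕ, p.Prime → p ∣ m → (m : ℝ) ^ (1 / (s : ℝ)) < (p : ℝ)) ∧
      ∀ p : ℕ, p.Prime → p ∣ V m → (m : ℝ) ^ (1 / (s : ℝ)) < (p : ℝ))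
    (hAl : ∀ m : ℕ, m.Prime →
      (∀ p : ℕ, p.Prime → p ∣ m → (m : ℝ) ^ (1 / ((5 : ℕ) : ℝ)) < (p : ℝ)) →
      (∀ p : ℕ, p.Prime → p ∣ V m → (m : ℝ) ^ (1 / ((5 : ℕ) : ℝ)) < (p : ℝ)) →
      (V m).primeFactorsList.length ≤ 3 → m ∈ P) :
    (∃ κ : ℝ, 0 < κ ∧ ∀ᶠ X : ℕ in atTop, κ * X / Real.log X ^ 2 ≤ N P X (2 * X)) ∧
    (∀ l : ℕ, ∃ B : ℕ, ∀ᶠ X : ℕ in atTop, ∃ u d : ℕ, 1 ≤ d ∧ (d : ℝ) ≤ Real.log X ^ B ∧
        ∀ i < l, u + i * d ∈ P ∧ X < u + i * d ∧ u + i * d ≤ 2 * X) ∧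
    ∀ s : ℕ, 2 ≤ s → ∀ θ : ℝ, 0 < θ → ∀ l : ℕ, 2 ≤ l → ∀ ε : ℝ, 0 < ε → ∃ B : ℕ,
      ∀ᶠ X : ℕ in atTop, ∀ Y : ℕ, (X : ℝ) ^ θ ≤ Y → Y ≤ X → ∀ A : Set ℕ, A ⊆ R s →
        (N (Outside A l (Real.log X ^ B) X (X + Y)) X (X + Y) : ℝ) ≤ ε * Y / Real.log X ^ 2 := by
  have hdeg : (lin a b).natDegree = 1 := by
    unfold Pool.Agent.W182.PW.lin
    exact natDegree_linear (by exact_mod_cast ha.ne')
  have hs := sys_two (lin a b) (lin_irr a b ha hab) (lin_deg a b ha) (lin_lead a b ha)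
    (lin_ne_X hX).symm
    (fun p hp => by
      obtain ⟨m, h1, h2⟩ := hadm p hp
      exact ⟨m, h1, by rwa [lin_eval]⟩)
  have he : ∀ m : ℕ, 2 ≤ m → (lin a b).eval (m : ℤ) = V m := fun m hm => by
    rw [lin_eval, hV m hm]
  refine all_p (lin a b) hs 3 5 (by norm_num) (count_lin _ hs hdeg) R P hPR ?_ ?_
  · intro s hs2 m hm
    obtain ⟨h1, h2⟩ := hR s hs2 m hm
    refine ⟨h1, fun p hp hd => ?_⟩
    rcases lt_or_ge m 2 with h3 | h3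
    · exact rough_small s m p hs2 h3 hp
    · refine h2 p hp ?_
      rwa [he m h3, Int.natCast_dvd_natCast] at hd
  · intro m hm h1 h2
    refine hAl m hm (fun p hp hd => rough_prime 5 m p (by norm_num) hm hp hd)
      (fun p hp hd => h1 p hp ?_) ?_
    · rw [he m hm.two_le, Int.natCast_dvd_natCast]
      exact hd
    · rwa [he m hm.two_le, Int.natAbs_natCast] at h2

end Pool.Agent.Y677.KP
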