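import Pool.Agent.Y677.KU.PolyFin
import Pool.Agent.TH423.SH.PSUa

set_option autoImplicit false

/-!
# The Chinese remainder theorem for sets of residues; reduced roots of polynomials
-/

open Polynomial Finset Filter Topology

namespace Pool.Agent.Y677.KP

open Pool.Agent.Y677.KU

open Classical in
/-- counting residues modulo a product of primes -/
theorem crt_card (Z : ℕ → ℕ → Prop) (T : Finset ℕ) (hT : ∀ p ∈ T, p.Prime) :
    ((range (∏ p ∈ T, p)).filter (fun c => ∀ p ∈ T, Z p (c % p))).card =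
      ∏ p ∈ T, ((range p).filter (fun c => Z p c)).card := by
  induction T using Finset.induction_on with
  | empty => simp
  | insert a s ha ih =>
    have hap : a.Prime := hT a (mem_insert_self _ _)
    have hs : ∀ p ∈ s, p.Prime := fun p hp => hT p (mem_insert_of_mem hp)
    rw [prod_insert ha, prod_insert ha, ← ih hs, ← card_product]
    obtain ⟨b, hb⟩ : ∃ b : ℕ, b = ∏ p ∈ s, p := ⟨_, rfl⟩
    rw [← hb]
    have hb0 : 0 < b := by
      rw [hb]
      exact Finset.prod_pos fun p hp => (hs p hp).pos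
    have hcop : Nat.Coprime a b := by
      rw [hb]
      apply Nat.Coprime.prod_right
      intro p hp
      rw [Nat.coprime_primes hap (hs p hp)]
      rintro rfl
      exact ha hp
    have hdvd : ∀ p ∈ s, p ∣ b := fun p hp => by
      rw [hb]
      exact dvd_prod_of_mem (fun p => p) hp
    apply card_bij (fun c _ => (c % a, c % b))
    · intro c hc
      rw [mem_filter, mem_range] at hc
      rw [mem_product, mem_filter, mem_filter, mem_range, mem_range]
      refine ⟨⟨Nat.mod_lt _ hap.pos, ?_⟩, Nat.mod_lt _ hb0, ?_⟩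
      · exact hc.2 a (mem_insert_self _ _)
      · intro p hp
        show Z p (c % b % p)
        rw [Nat.mod_mod_of_dvd c (hdvd p hp)]
        exact hc.2 p (mem_insert_of_mem hp)
    · intro c hc c' hc' he
      rw [mem_filter, mem_range] at hc hc'
      simp only [Prod.mk.injEq] at he
      have h1 : c ≡ c' [MOD a * b] := (Nat.modEq_and_modEq_iff_modEq_mul hcop).1 ⟨he.1, he.2⟩
      unfold Nat.ModEq at h1
      rwa [Nat.mod_eq_of_lt hc.1, Nat.mod_eq_of_lt hc'.1] at h1
    · rintro ⟨i, j⟩ hij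
      rw [mem_product, mem_filter, mem_filter, mem_range, mem_range] at hij
      obtain ⟨⟨h1, h2⟩, h3, h4⟩ := hij
      simp only at h1 h2 h3 h4
      obtain ⟨k, hk1, hk2⟩ := Nat.chineseRemainder hcop i j
      refine ⟨k % (a * b), ?_, ?_⟩
      · rw [mem_filter, mem_range]
        refine ⟨Nat.mod_lt _ (Nat.mul_pos hap.pos hb0), ?_⟩
        intro p hp
        rw [mem_insert] at hp
        rcases hp with rfl | hp
        · rw [Nat.mod_mod_of_dvd _ (Dvd.intro _ rfl), hk1, Nat.mod_eq_of_lt h1]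
          exact h2
        · rw [Nat.mod_mod_of_dvd _ ((hdvd p hp).trans (Dvd.intro_left _ rfl)),
            ← Nat.mod_mod_of_dvd k (hdvd p hp), hk2, Nat.mod_eq_of_lt h3]
          exact h4 p hp
      · simp only [Prod.mk.injEq]
        refine ⟨?_, ?_⟩
        · rw [Nat.mod_mod_of_dvd _ (Dvd.intro _ rfl), hk1, Nat.mod_eq_of_lt h1]
        · rw [Nat.mod_mod_of_dvd _ (Dvd.intro_left _ rfl), hk2, Nat.mod_eq_of_lt h3]

open Classical in
/-- the number of the reduced residues `c` modulo `q` with `q ∣ f(c)` -/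
noncomputable def rs (f : ℤ[X]) (q : ℕ) : ℕ :=
  ((range q).filter (fun c : ℕ => c.Coprime q ∧ (q : ℤ) ∣ f.eval (c : ℤ))).card

theorem rs_prod (f : ℤ[X]) (T : Finset ℕ) (hT : ∀ p ∈ T, p.Prime) :
    rs f (∏ p ∈ T, p) = ∏ p ∈ T, rs f p := by
  classical
  obtain ⟨Z, hZ⟩ : ∃ Z : ℕ → ℕ → Prop, ∀ p c, Z p c ↔ (Nat.Coprime c p ∧ (p : ℤ) ∣ f.eval (c : ℤ)) :=
    ⟨_, fun _ _ => Iff.rfl⟩
  have h := crt_card Z T hT
  have hcop : ∀ c p : ℕ, Nat.Coprime (c % p) p ↔ Nat.Coprime c p := by
    intro c p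
    rw [Nat.Coprime, Nat.Coprime, ← Nat.gcd_rec p c, Nat.gcd_comm]
  refine Eq.trans ?_ (h.trans ?_)
  · unfold rs
    apply congrArg
    ext c
    rw [mem_filter, mem_filter]
    apply and_congr_right
    intro _
    constructor
    · rintro ⟨h1, h2⟩ p hp
      have hpd : p ∣ ∏ p ∈ T, p := dvd_prod_of_mem (fun p => p) hp
      rw [hZ]
      refine ⟨(hcop c p).2 (h1.coprime_dvd_right hpd), ?_⟩
      rw [← Pool.Agent.W123.RU.Poly.per1]
      exact dvd_trans (by exact_mod_cast hpd) h2
    · intro h1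
      refine ⟨?_, ?_⟩
      · apply Nat.Coprime.prod_right
        intro p hp
        exact (hcop c p).1 ((hZ _ _).1 (h1 p hp)).1
      · have h2 : ∀ p ∈ T, (p : ℤ) ∣ f.eval (c : ℤ) := fun p hp => by
          rw [Pool.Agent.W123.RU.Poly.per1]
          exact ((hZ _ _).1 (h1 p hp)).2
        have h3 : ∀ p ∈ T, p ∣ (f.eval (c : ℤ)).natAbs := fun p hp => Int.natCast_dvd.1 (h2 p hp)
        have h4 := Finset.prod_primes_dvd (f.eval (c : ℤ)).natAbs (fun p hp => (hT p hp).prime) h3
        exact Int.natCast_dvd.2 h4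
  · apply prod_congr rfl
    intro p _
    unfold rs
    congr 1
    apply filter_congr
    intro c _
    exact hZ p c

end Pool.Agent.Y677.KP
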