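import Pool.Agent.Y677.KP.Crt
import Pool.Agent.Y932.CH.Bvw

set_option autoImplicit false

/-!
# Level of distribution of the values of a polynomial at primes (Bombieri-Vinogradov)
-/

open Polynomial Finset Filter Topology

namespace Pool.Agent.Y677.KP

open Pool.Agent.Y677.KU Pool.Agent.H474R2.PG
open Pool.Agent.TH423.SH.PSUa H343E
open Pool.Agent.H474R2.PG (rho)

/-- the primes of `(x, 2 x]` -/
def Sp (x : ℕ) : Finset ℕ := (Ioc x (2 * x)).filter Nat.Prime

/-- their number -/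
noncomputable def piD (x : ℕ) : ℝ := pi1 (2 * x) - pi1 x

lemma piAP_sub (x q a : ℕ) : ((((Ioc x (2 * x)).filter (fun p => p.Prime ∧ p ≡ a [MOD q])).card : ℕ) : ℝ) =
    piAP (2 * x) q a - piAP x q a := by
  classical
  unfold piAP
  have h1 : (Icc 1 (2 * x)).filter (fun p => p.Prime ∧ p ≡ a [MOD q]) =
      (Icc 1 x).filter (fun p => p.Prime ∧ p ≡ a [MOD q]) ∪
        (Ioc x (2 * x)).filter (fun p => p.Prime ∧ p ≡ a [MOD q]) := by
    rw [← filter_union]
    congr 1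
    ext p
    rw [mem_union, mem_Icc, mem_Icc, mem_Ioc]
    omega
  have h2 : Disjoint ((Icc 1 x).filter (fun p => p.Prime ∧ p ≡ a [MOD q]))
      ((Ioc x (2 * x)).filter (fun p => p.Prime ∧ p ≡ a [MOD q])) := by
    rw [Finset.disjoint_left]
    intro p hp hp'
    rw [mem_filter, mem_Icc] at hp
    rw [mem_filter, mem_Ioc] at hp'
    omega
  rw [h1, card_union_of_disjoint h2]
  push_cast
  ring

/-- the densities -/
noncomputable def hs (f : ℤ[X]) (p : ℕ) : ℝ := (rs f p : ℝ) / ((p : ℝ) - 1)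

lemma rs_le_rho (f : ℤ[X]) (q : ℕ) : rs f q ≤ rho f q := by
  classical
  unfold rs rho
  apply card_le_card
  intro c hc
  rw [mem_filter] at hc ⊢
  exact ⟨hc.1, hc.2.2⟩

open Classical in
/-- multiples of `d` among the values at primes -/
theorem count_dvd (f : ℤ[X]) (h0 : f.eval 0 ≠ 0) (x d : ℕ) (hd : 0 < d) :
    |(((Sp x).filter (fun p => d ∣ G f p)).card : ℝ) - rs f d * (piD x / (Nat.totient d : ℝ))| ≤
      rs f d * (ee (2 * x) d + ee x d) + (f.eval 0).natAbs := by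
  obtain ⟨A, hA⟩ : ∃ A : Finset ℕ,
      A = (range d).filter (fun c : ℕ => c.Coprime d ∧ (d : ℤ) ∣ f.eval (c : ℤ)) := ⟨_, rfl⟩
  have hAc : (rs f d : ℝ) = (A.card : ℝ) := by
    unfold rs
    rw [hA]
  have hsplit := card_filter_add_card_filter_not (s := (Sp x).filter (fun p => d ∣ G f p))
    (p := fun p => Nat.Coprime p d)
  rw [filter_filter, filter_filter] at hsplit
  -- the primes dividing `d`
  have h1 : ((Sp x).filter (fun p => d ∣ G f p ∧ ¬ Nat.Coprime p d)).card ≤ (f.eval 0).natAbs := by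
    have hsub : (Sp x).filter (fun p => d ∣ G f p ∧ ¬ Nat.Coprime p d) ⊆ Icc 1 (f.eval 0).natAbs := by
      intro p hp
      rw [mem_filter, Sp, mem_filter, mem_Ioc] at hp
      obtain ⟨⟨hp1, hpp⟩, hp2, hp3⟩ := hp
      have hpd : p ∣ d := by
        by_contra hcon
        exact hp3 ((Nat.Prime.coprime_iff_not_dvd hpp).2 hcon)
      have h2 : (p : ℤ) ∣ f.eval (p : ℤ) := (dvd_G f p p).1 (hpd.trans hp2)
      have h3 : (p : ℤ) ∣ f.eval 0 := by
        have h4 := sub_dvd_eval_sub (p : ℤ) 0 f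
        rw [sub_zero] at h4
        have h5 := dvd_sub h2 h4
        rwa [sub_sub_cancel] at h5
      have h4 : p ∣ (f.eval 0).natAbs := Int.natCast_dvd.1 h3
      rw [mem_Icc]
      exact ⟨hpp.one_le, Nat.le_of_dvd (Int.natAbs_pos.2 h0) h4⟩
    have := card_le_card hsub
    rwa [Nat.card_Icc, Nat.add_sub_cancel] at this
  -- the other primes
  have h2 : (((Sp x).filter (fun p => d ∣ G f p ∧ Nat.Coprime p d)).card : ℝ) =
      ∑ c ∈ A, (piAP (2 * x) d c - piAP x d c) := by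
    have hmap : Set.MapsTo (fun p => p % d)
        ((Sp x).filter (fun p => d ∣ G f p ∧ Nat.Coprime p d) : Finset ℕ) (A : Finset ℕ) := by
      intro p hp
      rw [mem_coe, mem_filter] at hp
      rw [hA, mem_coe, mem_filter, mem_range]
      refine ⟨Nat.mod_lt _ hd, ?_, ?_⟩
      · rw [Nat.Coprime, ← Nat.gcd_rec d p, Nat.gcd_comm]
        exact hp.2.2
      · rw [← Pool.Agent.W123.RU.Poly.per1]
        exact (dvd_G f d p).1 hp.2.1
    rw [card_eq_sum_card_fiberwise hmap]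
    push_cast
    apply sum_congr rfl
    intro c hc
    rw [hA, mem_filter, mem_range] at hc
    rw [← piAP_sub]
    congr 2
    ext p
    rw [mem_filter, mem_filter, mem_filter, Sp, mem_filter]
    constructor
    · rintro ⟨⟨⟨g1, g2⟩, g3, g4⟩, g5⟩
      refine ⟨g1, g2, ?_⟩
      unfold Nat.ModEq
      rw [Nat.mod_eq_of_lt hc.1]
      exact g5
    · rintro ⟨g1, g2, g3⟩
      have g5 : p % d = c := by
        unfold Nat.ModEq at g3
        rwa [Nat.mod_eq_of_lt hc.1] at g3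
      refine ⟨⟨⟨g1, g2⟩, ?_, ?_⟩, g5⟩
      · rw [dvd_G, Pool.Agent.W123.RU.Poly.per1, g5]
        exact hc.2.2
      · rw [Nat.coprime_comm, Nat.Coprime, Nat.gcd_rec d p, g5]
        exact hc.2.1
  have h3 : |∑ c ∈ A, (piAP (2 * x) d c - piAP x d c) - rs f d * (piD x / (Nat.totient d : ℝ))| ≤
      rs f d * (ee (2 * x) d + ee x d) := by
    rw [hAc, ← nsmul_eq_mul, ← sum_const, ← sum_sub_distrib, ← nsmul_eq_mul, ← sum_const]
    refine (abs_sum_le_sum_abs _ _).trans (sum_le_sum fun c hc => ?_)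
    rw [hA, mem_filter, mem_range] at hc
    have e1 := FF_le_ee x d c hc.1 hc.2.1
    have e2 := FF_le_ee (2 * x) d c hc.1 hc.2.1
    unfold FF at e1 e2
    have e3 : piAP (2 * x) d c - piAP x d c - piD x / (Nat.totient d : ℝ) =
        (piAP (2 * x) d c - pi1 (2 * x) / (Nat.totient d : ℝ)) -
          (piAP x d c - pi1 x / (Nat.totient d : ℝ)) := by
      unfold piD
      ring
    rw [e3]
    exact (abs_sub _ _).trans (add_le_add e2 e1)
  have h4 : (((Sp x).filter (fun p => d ∣ G f p)).card : ℝ) =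
      (((Sp x).filter (fun p => d ∣ G f p ∧ Nat.Coprime p d)).card : ℝ) +
      (((Sp x).filter (fun p => d ∣ G f p ∧ ¬ Nat.Coprime p d)).card : ℝ) := by
    exact_mod_cast hsplit.symm
  have h5 : (((Sp x).filter (fun p => d ∣ G f p ∧ ¬ Nat.Coprime p d)).card : ℝ) ≤
      (f.eval 0).natAbs := by exact_mod_cast h1
  have h6 : (0 : ℝ) ≤ (((Sp x).filter (fun p => d ∣ G f p ∧ ¬ Nat.Coprime p d)).card : ℝ) :=
    Nat.cast_nonneg _
  rw [h4, h2]
  rw [abs_le] at h3 ⊢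
  constructor
  · linarith [h3.1]
  · linarith [h3.2]

lemma totient_prod (T : Finset ℕ) (hT : ∀ p ∈ T, p.Prime) :
    ((Nat.totient (∏ p ∈ T, p) : ℕ) : ℝ) = ∏ p ∈ T, ((p : ℝ) - 1) := by
  induction T using Finset.induction_on with
  | empty => simp
  | insert a s ha ih =>
    have hap : a.Prime := hT a (mem_insert_self _ _)
    have hs : ∀ p ∈ s, p.Prime := fun p hp => hT p (mem_insert_of_mem hp)
    have hcop : Nat.Coprime a (∏ p ∈ s, p) := by
      apply Nat.Coprime.prod_right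
      intro p hp
      rw [Nat.coprime_primes hap (hs p hp)]
      rintro rfl
      exact ha hp
    rw [prod_insert ha, prod_insert ha, Nat.totient_mul hcop, Nat.cast_mul, ih hs,
      Nat.totient_prime hap, Nat.cast_sub hap.one_le, Nat.cast_one]

lemma hs_prod (f : ℤ[X]) (T : Finset ℕ) (hT : ∀ p ∈ T, p.Prime) :
    ∏ p ∈ T, hs f p = (rs f (∏ p ∈ T, p) : ℝ) / (Nat.totient (∏ p ∈ T, p) : ℝ) := by
  rw [rs_prod f T hT, totient_prod T hT]
  push_cast
  rw [← prod_div_distrib]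
  rfl

lemma rs_le_pow (f : ℤ[X]) (K : ℕ) (hK : ∀ p : ℕ, p.Prime → rho f p ≤ K) (T : Finset ℕ)
    (hT : ∀ p ∈ T, p.Prime) : (rs f (∏ p ∈ T, p) : ℝ) ≤ (K : ℝ) ^ T.card := by
  rw [rs_prod f T hT]
  push_cast
  rw [← prod_const]
  apply Finset.prod_le_prod
  · intro p _
    exact Nat.cast_nonneg _
  · intro p hp
    exact_mod_cast (rs_le_rho f p).trans (hK p (hT p hp))

theorem er_le (f : ℤ[X]) (h0 : f.eval 0 ≠ 0) (x : ℕ) (K : ℕ)
    (hK : ∀ p : ℕ, p.Prime → rho f p ≤ K) (T : Finset ℕ) (hT : ∀ p ∈ T, p.Prime) :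
    Er (Sp x) (G f) (piD x) (hs f) T ≤
      (K : ℝ) ^ T.card * (ee (2 * x) (∏ p ∈ T, p) + ee x (∏ p ∈ T, p)) + (f.eval 0).natAbs := by
  classical
  have hd : 0 < ∏ p ∈ T, p := Finset.prod_pos fun p hp => (hT p hp).pos
  have h1 := count_dvd f h0 x (∏ p ∈ T, p) hd
  unfold Er
  rw [hs_prod f T hT]
  have h2 : piD x * ((rs f (∏ p ∈ T, p) : ℝ) / (Nat.totient (∏ p ∈ T, p) : ℝ)) =
      rs f (∏ p ∈ T, p) * (piD x / (Nat.totient (∏ p ∈ T, p) : ℝ)) := by ring
  rw [h2]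
  refine (le_of_eq ?_).trans (h1.trans ?_)
  · congr!
  · have e1 := ee_nonneg x (∏ p ∈ T, p)
    have e2 := ee_nonneg (2 * x) (∏ p ∈ T, p)
    gcongr
    exact rs_le_pow f K hK T hT

/-- the sum of the errors -/
theorem er_sum (f : ℤ[X]) (h0 : f.eval 0 ≠ 0) (K : ℕ) (hK1 : 1 ≤ K)
    (hK : ∀ p : ℕ, p.Prime → rho f p ≤ K) (U : ℕ) : ∀ᶠ x : ℕ in atTop, ∀ P : Finset ℕ,
      (∀ p ∈ P, p.Prime) →
      ∑ T ∈ P.powerset.filter (fun T => ((∏ p ∈ T, p : ℕ) : ℝ) ≤ (x : ℝ) ^ (4995 / 10000 : ℝ)),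
        Er (Sp x) (G f) (piD x) (hs f) T ≤
      4 * x / Real.log x ^ U + (f.eval 0).natAbs * (x : ℝ) ^ (4995 / 10000 : ℝ) := by
  obtain ⟨X₀, hX₀⟩ := Pool.Agent.Y932.CH.bvw 1 K U hK1
  filter_upwards [eventually_ge_atTop (max X₀ 3)] with x hx P hP
  have hxX : X₀ ≤ x := (le_max_left _ _).trans hx
  have hx3 : 3 ≤ x := (le_max_right _ _).trans hx
  have hx1 : 1 ≤ x := by omega
  obtain ⟨D, hD⟩ : ∃ D : ℝ, D = (x : ℝ) ^ (4995 / 10000 : ℝ) := ⟨_, rfl⟩
  rw [← hD]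
  have hx1r : (1 : ℝ) ≤ x := by exact_mod_cast hx1
  have hD1 : 1 ≤ D := by
    rw [hD]
    exact Real.one_le_rpow hx1r (by norm_num)
  have hinj : Set.InjOn (fun T : Finset ℕ => ∏ p ∈ T, p)
      (P.powerset.filter (fun T => ((∏ p ∈ T, p : ℕ) : ℝ) ≤ D) : Finset (Finset ℕ)) := by
    intro T hT T' hT' he
    rw [mem_coe, mem_filter, mem_powerset] at hT hT'
    simp only at he
    rw [← Nat.primeFactors_prod (fun p hp => hP p (hT.1 hp)), he,
      Nat.primeFactors_prod (fun p hp => hP p (hT'.1 hp))]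
  have hmem : ∀ T ∈ P.powerset.filter (fun T => ((∏ p ∈ T, p : ℕ) : ℝ) ≤ D),
      (∀ p ∈ T, p.Prime) ∧ ∏ p ∈ T, p ∈ Icc 1 ⌊D⌋₊ := by
    intro T hT
    rw [mem_filter, mem_powerset] at hT
    have hTp : ∀ p ∈ T, p.Prime := fun p hp => hP p (hT.1 hp)
    exact ⟨hTp, mem_Icc.2 ⟨Finset.prod_pos fun p hp => (hTp p hp).pos, Nat.le_floor hT.2⟩⟩
  have hcard : ((P.powerset.filter (fun T => ((∏ p ∈ T, p : ℕ) : ℝ) ≤ D)).card : ℝ) ≤ D := by
    have h3 : (P.powerset.filter (fun T => ((∏ p ∈ T, p : ℕ) : ℝ) ≤ D)).card ≤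
        (Icc 1 ⌊D⌋₊).card :=
      card_le_card_of_injOn (fun T => ∏ p ∈ T, p) (fun T hT => (hmem T hT).2) hinj
    rw [Nat.card_Icc, Nat.add_sub_cancel] at h3
    have h4 : ((P.powerset.filter (fun T => ((∏ p ∈ T, p : ℕ) : ℝ) ≤ D)).card : ℝ) ≤ (⌊D⌋₊ : ℝ) := by
      exact_mod_cast h3
    exact h4.trans (Nat.floor_le (by linarith))
  have h1 : ∑ T ∈ P.powerset.filter (fun T => ((∏ p ∈ T, p : ℕ) : ℝ) ≤ D),
      Er (Sp x) (G f) (piD x) (hs f) T ≤
      ∑ T ∈ P.powerset.filter (fun T => ((∏ p ∈ T, p : ℕ) : ℝ) ≤ D),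
        ((K : ℝ) ^ T.card * (ee (2 * x) (∏ p ∈ T, p) + ee x (∏ p ∈ T, p)) + (f.eval 0).natAbs) :=
    sum_le_sum fun T hT => er_le f h0 x K hK T (hmem T hT).1
  refine h1.trans ?_
  rw [sum_add_distrib, sum_const, nsmul_eq_mul]
  apply add_le_add
  · have hcase : ∀ u : ℕ, u ≤ 2 * x → ∑ T ∈ P.powerset.filter (fun T => ((∏ p ∈ T, p : ℕ) : ℝ) ≤ D),
        (K : ℝ) ^ T.card * ee u (∏ p ∈ T, p) ≤ 2 * x / Real.log x ^ U := by
      intro u hu
      have h2 : ∑ T ∈ P.powerset.filter (fun T => ((∏ p ∈ T, p : ℕ) : ℝ) ≤ D),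
          (K : ℝ) ^ T.card * ee u (∏ p ∈ T, p) =
          ∑ T ∈ P.powerset.filter (fun T => ((∏ p ∈ T, p : ℕ) : ℝ) ≤ D),
            (fun q : ℕ => (K : ℝ) ^ q.primeFactors.card * ee u q) (∏ p ∈ T, p) := by
        apply sum_congr rfl
        intro T hT
        simp only
        rw [Nat.primeFactors_prod (hmem T hT).1]
      have hx3r : (3 : ℝ) ≤ x := by exact_mod_cast hx3
      have hl : 0 < Real.log x := Real.log_pos (by linarith)
      have hl2 : Real.log x ≤ Real.log ((2 * x : ℕ) : ℝ) :=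
        Real.log_le_log (by linarith) (by push_cast; linarith)
      rw [h2, ← sum_image (f := fun q : ℕ => (K : ℝ) ^ q.primeFactors.card * ee u q) hinj]
      refine (sum_le_sum_of_subset_of_nonneg (t := Icc 1 ⌊D⌋₊) ?_ ?_).trans
        ((hX₀ (2 * x) (by omega) u hu ⌊D⌋₊ ?_).trans ?_)
      · intro q hq
        rw [mem_image] at hq
        obtain ⟨T, hT, rfl⟩ := hq
        exact (hmem T hT).2
      · intro q _ _
        exact mul_nonneg (by positivity) (ee_nonneg _ _)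
      · rw [Nat.cast_one, one_mul]
        refine (Nat.floor_le (by linarith)).trans ?_
        rw [hD]
        exact Real.rpow_le_rpow (by linarith) (by push_cast; linarith) (by norm_num)
      · rw [Nat.cast_mul, Nat.cast_two]
        rw [Nat.cast_mul, Nat.cast_two] at hl2
        apply div_le_div_of_nonneg_left (by linarith) (by positivity)
        exact pow_le_pow_left₀ hl.le hl2 U
    have h5 := hcase (2 * x) le_rfl
    have h6 := hcase x (by omega)
    simp only [mul_add, sum_add_distrib]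
    calc _ ≤ 2 * (x : ℝ) / Real.log x ^ U + 2 * x / Real.log x ^ U := add_le_add h5 h6
      _ = 4 * x / Real.log x ^ U := by ring
  · rw [mul_comm]
    exact mul_le_mul_of_nonneg_left hcard (Nat.cast_nonneg _)

end Pool.Agent.Y677.KP
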