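import Pool.Agent.Y677.KP.LowerM

set_option autoImplicit false

/-!
# Almost prime values of polynomials at primes, explicit numbers of prime factors
-/

open Polynomial Finset Filter Topology

namespace Pool.Agent.Y677.KP

open Pool.Agent.Y677.KU
open Pool.Agent.W23.DC Pool.Agent.Y882
open Pool.Agent.H474R2.PG (rho)
open Pool.Agent.W123.RU Pool.Agent.W123.RU.Poly

/-- products of elements that are at least `b` -/
lemma pow_le_prod' (b : ℝ) (hb : 0 ≤ b) (l : List ℕ) (h : ∀ x ∈ l, b ≤ (x : ℝ)) :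
    b ^ l.length ≤ (l.prod : ℝ) := pow_le_prod b hb l h

open Classical in
/-- a number with at most `m` medium prime factors and otherwise large prime factors -/
lemma struct_m (N r m : ℕ) (hN : N ≠ 0) (a b : ℝ) (ha : 1 ≤ a) (hab : a ≤ b)
    (h1 : ∀ p : ℕ, p.Prime → p ∣ N → a ≤ (p : ℝ))
    (h2 : (N.primeFactors.filter (fun p : ℕ => (p : ℝ) < b)).card ≤ m)
    (h3 : ∀ q : ℕ, q.Prime → (q : ℝ) < b → ¬ q ^ 2 ∣ N) (hm : m ≤ r + 1)
    (hr : r + 1 ≤ N.primeFactorsList.length) : a ^ m * b ^ (r + 1 - m) ≤ (N : ℝ) := by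
  obtain ⟨l, hl⟩ : ∃ l, l = N.primeFactorsList := ⟨_, rfl⟩
  obtain ⟨ls, hls⟩ : ∃ ls, ls = l.filter (fun p : ℕ => (p : ℝ) < b) := ⟨_, rfl⟩
  obtain ⟨lb, hlb⟩ : ∃ lb, lb = l.filter (fun p : ℕ => !decide ((p : ℝ) < b)) := ⟨_, rfl⟩
  have hperm : (ls ++ lb).Perm l := by
    rw [hls, hlb]
    exact List.filter_append_perm (fun p : ℕ => decide ((p : ℝ) < b)) l
  have hmem : ∀ p ∈ l, p.Prime ∧ p ∣ N := fun p hp => by
    rw [hl] at hp
    exact ⟨Nat.prime_of_mem_primeFactorsList hp, Nat.dvd_of_mem_primeFactorsList hp⟩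
  have hmems : ∀ p ∈ ls, p ∈ l ∧ (p : ℝ) < b := fun p hp => by
    rw [hls, List.mem_filter] at hp
    exact ⟨hp.1, by simpa using hp.2⟩
  have hmemb : ∀ p ∈ lb, p ∈ l ∧ b ≤ (p : ℝ) := fun p hp => by
    rw [hlb, List.mem_filter] at hp
    exact ⟨hp.1, by simpa using hp.2⟩
  have hb0 : 0 ≤ b := by linarith
  -- the small prime factors are different
  have hnd : ls.Nodup := by
    rw [List.nodup_iff_count_le_one]
    intro q
    by_contra hcon
    rw [not_le] at hcon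
    have hq : q ∈ ls := List.count_pos_iff.1 (by omega)
    obtain ⟨hq1, hq2⟩ := hmems q hq
    obtain ⟨hqp, hqN⟩ := hmem q hq1
    apply h3 q hqp hq2
    have h4 : List.count q ls ≤ List.count q l := by
      rw [hls]
      exact List.Sublist.count_le q List.filter_sublist
    have h5 : 2 ≤ N.factorization q := by
      rw [← Nat.primeFactorsList_count_eq, ← hl]
      omega
    exact (Nat.Prime.pow_dvd_iff_le_factorization hqp hN).2 h5
  have hlen : ls.length ≤ m := by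
    rw [← List.toFinset_card_of_nodup hnd]
    refine (card_le_card ?_).trans h2
    intro q hq
    rw [List.mem_toFinset] at hq
    obtain ⟨hq1, hq2⟩ := hmems q hq
    obtain ⟨hqp, hqN⟩ := hmem q hq1
    rw [mem_filter, Nat.mem_primeFactors]
    exact ⟨⟨hqp, hqN, hN⟩, hq2⟩
  have hprod : (N : ℝ) = (ls.prod : ℝ) * (lb.prod : ℝ) := by
    have h4 := hperm.prod_eq
    rw [List.prod_append, hl, Nat.prod_primeFactorsList hN] at h4
    rw [← h4]
    push_cast
    ring
  have hlensum : ls.length + lb.length = l.length := by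
    have := hperm.length_eq
    rwa [List.length_append] at this
  have e1 := pow_le_prod' a (by linarith) ls (fun p hp => h1 p (hmem p (hmems p hp).1).1
    (hmem p (hmems p hp).1).2)
  have e2 := pow_le_prod' b hb0 lb (fun p hp => (hmemb p hp).2)
  have hb1 : 1 ≤ b := ha.trans hab
  rw [← hl] at hr
  obtain ⟨k, hk⟩ : ∃ k, m = ls.length + k := ⟨m - ls.length, by omega⟩
  have h5 : r + 1 - m + k ≤ lb.length := by omega
  calc a ^ m * b ^ (r + 1 - m) = a ^ ls.length * (a ^ k * b ^ (r + 1 - m)) := by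
        rw [hk, pow_add]
        ring
    _ ≤ a ^ ls.length * (b ^ k * b ^ (r + 1 - m)) := by
        gcongr
    _ = a ^ ls.length * b ^ (r + 1 - m + k) := by
        rw [← pow_add, add_comm k]
    _ ≤ a ^ ls.length * b ^ lb.length := by
        gcongr
    _ ≤ (ls.prod : ℝ) * (lb.prod : ℝ) := mul_le_mul e1 e2 (by positivity) (by positivity)
    _ = N := hprod.symm

open Classical in
/-- **Almost prime values of an irreducible polynomial at primes.** -/
theorem prime_poly_m (f : ℤ[X]) (hf : Sys (two f)) (r s m : ℕ) (hm : 1 ≤ m) (hmr : m ≤ r + 1)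
    (ζ β : ℝ) (hs0' : 1 ≤ s) (hζs : 1 / (s : ℝ) < ζ)
    (h4 : 499 / 1000 ≤ 4 * ζ) (h2 : 2 * ζ < 499 / 1000) (hζβ : ζ ≤ β) (hβ : β < 499 / 1000)
    (hζ3 : ζ ≤ 3 * (499 / 1000 - β))
    (hmm : β * ζ ^ m < (499 / 1000 - β) * (499 / 1000 - ζ) ^ m)
    (hgr' : (f.natDegree : ℝ) < m * ζ + (r + 1 - m) * β) :
    ∃ κ : ℝ, 0 < κ ∧ ∀ᶠ x : ℕ in atTop, κ * x / Real.log x ^ 2 ≤
      (((Ioc x (2 * x)).filter (fun p => p.Prime ∧
        (∀ q : ℕ, q.Prime → q ∣ G f p → (p : ℝ) ^ (1 / (s : ℝ)) < q) ∧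
        (G f p).primeFactorsList.length ≤ r)).card : ℝ) := by
  obtain ⟨g, hg⟩ : ∃ g, g = f.natDegree := ⟨_, rfl⟩
  rw [← hg] at hgr'
  obtain ⟨n', hn'⟩ : ∃ n' : ℕ, n' = r + 1 - m := ⟨_, rfl⟩
  have hgr : (g : ℝ) < m * ζ + n' * β := by
    have : (n' : ℝ) = r + 1 - m := by
      rw [hn', Nat.cast_sub hmr]
      push_cast
      ring
    rw [this]
    exact hgr'
  have hζ0 : 0 < ζ := by linarith
  have hβ0 : 0 < β := by linarith
  have hs0 : (0 : ℝ) < s := by exact_mod_cast hs0'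
  have hirr : Irreducible f := hf.irr 1
  have hdeg : 0 < f.natDegree := hf.deg 1
  obtain ⟨c, hc, hlow⟩ := lower_pm f hf m hm ζ β h4 h2 hζβ hβ hζ3 hmm
  have hsq := sq_few2 f hirr hdeg ζ β (c / 4) (by linarith) (by linarith) (by positivity)
  obtain ⟨C, hC1, hC⟩ := size_bound f
  rw [← hg] at hC
  obtain ⟨n₀, hn₀⟩ := ne_zero_ev f hirr.ne_zero
  refine ⟨c / 4, by positivity, ?_⟩
  have hXr : Tendsto (fun X : ℕ => (X : ℝ)) atTop atTop := tendsto_natCast_atTop_atTop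
  have e2 := ((tendsto_rpow_atTop (show 0 < m * ζ + n' * β - g by linarith)).comp hXr).eventually_gt_atTop (C * 2 ^ g)
  have e3 := ((tendsto_rpow_atTop (show 0 < ζ - 1 / s by linarith)).comp hXr).eventually_gt_atTop
    ((2 : ℝ) ^ (1 / (s : ℝ)))
  filter_upwards [hlow, hsq, e2, e3, eventually_ge_atTop (n₀ + 3)] with x f1 f2 e2 e3 hxn
  simp only [Function.comp] at e2 e3
  have hx3 : 3 ≤ x := by omega
  have hx3r : (3 : ℝ) ≤ x := by exact_mod_cast hx3
  have hx0 : (0 : ℝ) < x := by linarith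
  have hx1 : (1 : ℝ) < x := by linarith
  have hl : 0 < Real.log x := Real.log_pos hx1
  have g2 := f2 x
  rw [← two_mul] at g2
  have hsub : (Sp x).filter (fun n => (∀ p ∈ PZ x ζ, ¬ p ∣ G f n) ∧
        ((pr x ζ β).filter (fun q => q ∣ G f n)).card ≤ m) ⊆
      (Ioc x (2 * x)).filter (fun p => p.Prime ∧
        (∀ q : ℕ, q.Prime → q ∣ G f p → (p : ℝ) ^ (1 / (s : ℝ)) < q) ∧
        (G f p).primeFactorsList.length ≤ r) ∪
      (Ioc x (2 * x)).filter (fun n => ∃ q ∈ pr x ζ β, q ^ 2 ∣ G f n) := by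
    intro n hn
    rw [mem_filter, Sp, mem_filter, mem_Ioc] at hn
    obtain ⟨⟨⟨hn1, hn2⟩, hnp⟩, hn3, hn4⟩ := hn
    rw [mem_union, mem_filter, mem_filter, mem_Ioc]
    by_cases hs : ∃ q ∈ pr x ζ β, q ^ 2 ∣ G f n
    · right
      exact ⟨⟨hn1, hn2⟩, hs⟩
    left
    have hnx : (n : ℝ) ≤ 2 * x := by exact_mod_cast hn2
    have hbig : ∀ p : ℕ, p.Prime → p ∣ G f n → (x : ℝ) ^ ζ ≤ p := by
      intro p hp hpn
      by_cases hpY : p ≤ x
      · by_contra hcon
        rw [not_le] at hcon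
        apply hn3 p _ hpn
        rw [mem_PZ]
        refine ⟨⟨hp.one_le, hpY⟩, hp, ?_⟩
        rw [tt_mul_log x (by omega) p hp.pos] at hcon
        exact (Real.rpow_lt_rpow_left_iff hx1).1 hcon
      · rw [not_le] at hpY
        calc (x : ℝ) ^ ζ ≤ (x : ℝ) ^ (1 : ℝ) :=
              Real.rpow_le_rpow_of_exponent_le hx1.le (by linarith)
          _ = x := Real.rpow_one _
          _ ≤ p := by exact_mod_cast hpY.le
    refine ⟨⟨hn1, hn2⟩, hnp, ?_, ?_⟩
    · intro q hq hqn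
      have hn0 : (0 : ℝ) ≤ n := Nat.cast_nonneg _
      calc (n : ℝ) ^ (1 / (s : ℝ)) ≤ (2 * x) ^ (1 / (s : ℝ)) :=
            Real.rpow_le_rpow hn0 hnx (by positivity)
        _ = (2 : ℝ) ^ (1 / (s : ℝ)) * (x : ℝ) ^ (1 / (s : ℝ)) :=
            Real.mul_rpow (by norm_num) hx0.le
        _ < (x : ℝ) ^ (ζ - 1 / s) * (x : ℝ) ^ (1 / (s : ℝ)) :=
            mul_lt_mul_of_pos_right e3 (by positivity)
        _ = (x : ℝ) ^ ζ := by rw [← Real.rpow_add hx0, sub_add_cancel]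
        _ ≤ q := hbig q hq hqn
    · by_contra hlen
      rw [not_le] at hlen
      have hmem : ∀ q : ℕ, q.Prime → q ∣ G f n → (q : ℝ) < (x : ℝ) ^ β → q ∈ pr x ζ β := by
        intro q hq hqn hqb
        have h1 := hbig q hq hqn
        rw [mem_pr']
        have hqe := tt_mul_log x (by omega) q hq.pos
        rw [hqe] at h1 hqb
        have h2 := (Real.rpow_le_rpow_left_iff hx1).1 h1
        have h3 := (Real.rpow_lt_rpow_left_iff hx1).1 hqb
        refine ⟨⟨hq.one_le, ?_⟩, hq, h2, h3⟩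
        have h4 : (q : ℝ) ≤ x := by
          rw [hqe]
          calc (x : ℝ) ^ (tt x q) ≤ (x : ℝ) ^ (1 : ℝ) :=
                Real.rpow_le_rpow_of_exponent_le hx1.le (by linarith)
            _ = x := Real.rpow_one _
        exact_mod_cast h4
      have h1 := struct_m (G f n) r m (hn₀ n (by omega)) ((x : ℝ) ^ ζ) ((x : ℝ) ^ β)
        (Real.one_le_rpow hx1.le (by linarith)) (Real.rpow_le_rpow_of_exponent_le hx1.le hζβ)
        hbig (by
          refine (card_le_card ?_).trans hn4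
          intro q hq
          rw [mem_filter, Nat.mem_primeFactors] at hq
          exact mem_filter.2 ⟨hmem q hq.1.1 hq.1.2.1 hq.2, hq.1.2.1⟩) (by
          intro q hq hqb hqn
          exact hs ⟨q, hmem q hq (dvd_trans (dvd_pow_self q two_ne_zero) hqn) hqb, hqn⟩) hmr hlen
      rw [← hn'] at h1
      have h2 := hC n (by omega)
      have h4 : (G f n : ℝ) ≤ C * 2 ^ g * (x : ℝ) ^ (g : ℝ) := by
        calc (G f n : ℝ) ≤ C * (n : ℝ) ^ g := h2
          _ ≤ C * (2 * x) ^ g := by gcongr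
          _ = C * 2 ^ g * (x : ℝ) ^ g := by rw [mul_pow]; ring
          _ = _ := by rw [Real.rpow_natCast]
      have h5 : (x : ℝ) ^ (m * ζ + n' * β) = ((x : ℝ) ^ ζ) ^ m * ((x : ℝ) ^ β) ^ n' := by
        rw [← Real.rpow_natCast, ← Real.rpow_natCast, ← Real.rpow_mul hx0.le, ← Real.rpow_mul hx0.le,
          ← Real.rpow_add hx0, mul_comm β, mul_comm ζ]
      have h6 : C * 2 ^ g * (x : ℝ) ^ (g : ℝ) < (x : ℝ) ^ (m * ζ + n' * β) := by
        have h7 : (x : ℝ) ^ (m * ζ + n' * β) =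
            (x : ℝ) ^ (m * ζ + n' * β - g) * (x : ℝ) ^ (g : ℝ) := by
          rw [← Real.rpow_add hx0, sub_add_cancel]
        rw [h7]
        exact mul_lt_mul_of_pos_right e2 (by positivity)
      linarith
  have h1 := (card_le_card hsub).trans (card_union_le _ _)
  have h2 : (((Sp x).filter (fun n => (∀ p ∈ PZ x ζ, ¬ p ∣ G f n) ∧
        ((pr x ζ β).filter (fun q => q ∣ G f n)).card ≤ m)).card : ℝ) ≤
      (((Ioc x (2 * x)).filter (fun p => p.Prime ∧
        (∀ q : ℕ, q.Prime → q ∣ G f p → (p : ℝ) ^ (1 / (s : ℝ)) < q) ∧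
        (G f p).primeFactorsList.length ≤ r)).card : ℝ) +
      (((Ioc x (2 * x)).filter (fun n => ∃ q ∈ pr x ζ β, q ^ 2 ∣ G f n)).card : ℝ) := by
    exact_mod_cast h1
  have h5 : c * x / Real.log x ^ 2 = c / 4 * x / Real.log x ^ 2 + (c / 4 * x / Real.log x ^ 2 +
      c / 4 * x / Real.log x ^ 2) + c / 4 * x / Real.log x ^ 2 := by
    ring
  have h6 : 0 ≤ c / 4 * x / Real.log x ^ 2 := by positivity
  linarith

end Pool.Agent.Y677.KP
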