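import Pool.Agent.Y677.KP.Vs

set_option autoImplicit false

/-!
# Kuhn's weighted linear sieve for the values of a polynomial at primes
-/

open Polynomial Finset Filter Topology

namespace Pool.Agent.Y677.KP

open Pool.Agent.Y677.KU Pool.Agent.H474R2.PG
open Pool.Agent.TH423.SH.PSUa H343E
open Pool.Agent.H474R2.PG (rho)
open Pool.Agent.W23.DC Pool.Agent.Y882
open Pool.Agent.W123.RU Pool.Agent.W123.RU.Poly

/-- powers of logarithms against powers -/
lemma log_pow_le (k : ℕ) (A B a : ℝ) (hB : 0 < B) (ha : 0 < a) :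
    ∀ᶠ L : ℕ in atTop, A * Real.log L ^ k ≤ B * (L : ℝ) ^ a := by
  have h1 := (isLittleO_log_rpow_rpow_atTop (k : ℝ) ha).def (show 0 < B / (|A| + 1) by positivity)
  have h2 := (tendsto_natCast_atTop_atTop (R := ℝ)).eventually h1
  filter_upwards [h2, eventually_ge_atTop 1] with L h2 h3
  have h3r : (1 : ℝ) ≤ L := by exact_mod_cast h3
  have hl : 0 ≤ Real.log L := Real.log_nonneg h3r
  rw [Real.norm_of_nonneg (Real.rpow_nonneg hl _), Real.norm_of_nonneg (by positivity),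
    Real.rpow_natCast] at h2
  have hA : 0 < |A| + 1 := by positivity
  calc A * Real.log L ^ k ≤ (|A| + 1) * Real.log L ^ k :=
        mul_le_mul_of_nonneg_right (by linarith [le_abs_self A]) (by positivity)
    _ ≤ (|A| + 1) * (B / (|A| + 1) * (L : ℝ) ^ a) := mul_le_mul_of_nonneg_left h2 hA.le
    _ = B * (L : ℝ) ^ a := by
        field_simp

lemma cond_hs (f : ℤ[X]) (K : ℕ) (hKb : ∀ p : ℕ, p.Prime → rho f p ≤ K) (L : ℕ) (ε₁ β η₁ : ℝ)
    (hM : Mer (pr L ε₁ β) (tt L) (hs f) ε₁ β η₁) : Cond K L ε₁ β η₁ (hs f) where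
  nn := fun p hp => (hs_bounds f p (mem_PZ.1 hp).2.1).1
  le1 := fun p hp => (hs_bounds f p (mem_PZ.1 hp).2.1).2
  leκ := fun p hp _ => by
    have hpp := (mem_PZ.1 hp).2.1
    have hp0 : (2 : ℝ) ≤ p := by exact_mod_cast hpp.two_le
    unfold hs
    have h2 : (rs f p : ℝ) ≤ K := by exact_mod_cast (rs_le_rho f p).trans (hKb p hpp)
    exact div_le_div_of_nonneg_right h2 (by linarith)
  mer := hM

/-- the number of primes, lower bound -/
lemma pi_low : ∀ᶠ x : ℕ in atTop, (x : ℝ) / (2 * Real.log x) ≤ piD x := by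
  have h := Pool.Agent.Helper923.PNT.pi_tendsto.comp (tendsto_natCast_atTop_atTop (R := ℝ))
  have h2 := h.eventually (Metric.ball_mem_nhds (1 : ℝ) (show (0 : ℝ) < 1 / 10 by norm_num))
  have hlog := (Real.tendsto_log_atTop.comp (tendsto_natCast_atTop_atTop (R := ℝ))).eventually_ge_atTop 8
  obtain ⟨x₀, hx₀⟩ := eventually_atTop.1 h2
  filter_upwards [eventually_ge_atTop (max x₀ 3), hlog] with x hx hl8
  simp only [Function.comp] at hl8
  have hxx : x₀ ≤ x := (le_max_left _ _).trans hx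
  have hx3 : 3 ≤ x := (le_max_right _ _).trans hx
  have a1 := hx₀ x hxx
  have a2 := hx₀ (2 * x) (by omega)
  simp only [Function.comp, Nat.floor_natCast] at a1 a2
  rw [Real.dist_eq] at a1 a2
  have hx3r : (3 : ℝ) ≤ x := by exact_mod_cast hx3
  have hx0 : (0 : ℝ) < x := by linarith
  have hl : 0 < Real.log x := Real.log_pos (by linarith)
  have hl2 : Real.log ((2 * x : ℕ) : ℝ) ≤ Real.log x + 1 := by
    push_cast
    rw [Real.log_mul (by norm_num) (by linarith)]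
    linarith [Real.log_two_lt_d9]
  have hl2' : 0 < Real.log ((2 * x : ℕ) : ℝ) := Real.log_pos (by push_cast; linarith)
  have h3 := (abs_lt.1 a1).2
  have h4 := (abs_lt.1 a2).1
  have h5 : (Nat.primeCounting x : ℝ) * Real.log x ≤ 11 / 10 * x := by
    have : (Nat.primeCounting x : ℝ) * Real.log x / x ≤ 11 / 10 := by linarith
    rwa [div_le_iff₀ hx0] at this
  have h6 : 9 / 10 * (2 * (x : ℝ)) ≤ (Nat.primeCounting (2 * x) : ℝ) * Real.log ((2 * x : ℕ) : ℝ) := by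
    have h7 : 9 / 10 ≤ (Nat.primeCounting (2 * x) : ℝ) * Real.log ((2 * x : ℕ) : ℝ) /
        ((2 * x : ℕ) : ℝ) := by linarith
    rw [le_div_iff₀ (by push_cast; linarith)] at h7
    push_cast at h7 ⊢
    exact h7
  have hpi : ∀ y : ℕ, pi1 y = (Nat.primeCounting y : ℝ) := by
    intro y
    unfold pi1
    rw [Nat.primeCounting, Nat.primeCounting', Nat.count_eq_card_filter_range]
    congr 2
    ext p
    rw [mem_filter, mem_filter, mem_Icc, mem_range]
    constructor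
    · rintro ⟨⟨h6, h7⟩, h8⟩
      exact ⟨by omega, h8⟩
    · rintro ⟨h6, h7⟩
      exact ⟨⟨h7.one_le, by omega⟩, h7⟩
  have hp0 : (0 : ℝ) ≤ Nat.primeCounting (2 * x) := Nat.cast_nonneg _
  unfold piD
  rw [hpi, hpi]
  have h8 : 9 / 10 * (2 * (x : ℝ)) ≤ (Nat.primeCounting (2 * x) : ℝ) * (Real.log x + 1) :=
    h6.trans (mul_le_mul_of_nonneg_left hl2 hp0)
  have h9 : 16 / 10 * (x : ℝ) ≤ (Nat.primeCounting (2 * x) : ℝ) * Real.log x := by
    have h10 : (Nat.primeCounting (2 * x) : ℝ) * (Real.log x + 1) ≤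
        (Nat.primeCounting (2 * x) : ℝ) * (Real.log x * (9 / 8)) := by
      apply mul_le_mul_of_nonneg_left _ hp0
      linarith
    linarith
  rw [div_le_iff₀ (by linarith)]
  nlinarith

open Classical in
/-- **Kuhn's weights for one polynomial at primes** -/
theorem lower_p (f : ℤ[X]) (hf : Sys (two f)) (ζ β : ℝ) (h4 : 499 / 1000 ≤ 4 * ζ)
    (h2 : 2 * ζ < 499 / 1000) (hζβ : ζ ≤ β) (hβ : ζ + β < 499 / 1000) :
    ∃ c : ℝ, 0 < c ∧ ∀ᶠ x : ℕ in atTop, c * x / Real.log x ^ 2 ≤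
      (((Sp x).filter (fun n => (∀ p ∈ PZ x ζ, ¬ p ∣ G f n) ∧
        ((pr x ζ β).filter (fun q => q ∣ G f n)).card ≤ 1)).card : ℝ) := by
  have h0 := eval0 f hf
  have hζ0 : 0 < ζ := by linarith
  obtain ⟨K, hK1, hKb⟩ := rho_bd f (hf.irr 1).ne_zero
  obtain ⟨ε₁, η₁, c₀, hε₁, hε₁ζ, hη₁, hc₀, Y0, hkuhn⟩ := kuhn K (499 / 1000) ζ β (5 / 10000) hζ0 h2
    h4 (by norm_num) hζβ hβ (by norm_num)
  obtain ⟨Y1, hM⟩ := mer_hs f hf ε₁ β η₁ hε₁ (by linarith) hη₁
  obtain ⟨v, hv, hV⟩ := Vs_ge f hf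
  have herr := er_sum f h0 K hK1 hKb 4
  refine ⟨c₀ * v / 4, by positivity, ?_⟩
  obtain ⟨F0, hF0⟩ : ∃ F0 : ℝ, F0 = ((f.eval 0).natAbs : ℝ) := ⟨_, rfl⟩
  have hF0n : 0 ≤ F0 := by rw [hF0]; positivity
  have ev := log_pow_le 3 (48 * F0) (c₀ * v) (5005 / 10000) (by positivity) (by norm_num)
  have hXr : Tendsto (fun X : ℕ => (X : ℝ)) atTop atTop := tendsto_natCast_atTop_atTop
  have hlog := (Real.tendsto_log_atTop.comp hXr).eventually_ge_atTop (192 / (c₀ * v) + 1)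
  filter_upwards [ev, herr, pi_low, hlog, eventually_ge_atTop (max (max Y0 Y1) 3)] with
    x e1 e2 e3 e4 e5
  simp only [Function.comp] at e4
  have hL3 : 3 ≤ x := (le_max_right _ _).trans e5
  have hLY0 : Y0 ≤ x := (le_max_left _ _).trans ((le_max_left _ _).trans e5)
  have hLY1 : Y1 ≤ x := (le_max_right _ _).trans ((le_max_left _ _).trans e5)
  have hL3r : (3 : ℝ) ≤ x := by exact_mod_cast hL3
  have hL0 : (0 : ℝ) < x := by linarith
  have hl0 : 0 < Real.log x := Real.log_pos (by linarith)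
  have hcond : Cond K x ε₁ β η₁ (hs f) := cond_hs f K hKb x ε₁ β η₁ (hM x hLY1)
  have hpi0 : 0 ≤ piD x := le_trans (by positivity) e3
  have h5 := hkuhn x hLY0 (Sp x) (G f) (piD x) (hs f) hpi0 hcond
  refine le_trans ?_ h5
  have h6 := hV x hL3 ε₁
  have hexp : (499 / 1000 + 5 / 10000 : ℝ) = 4995 / 10000 := by norm_num
  have h7 := e2 (PZ x β) (fun p hp => (mem_PZ.1 hp).2.1)
  rw [← hexp, ← hF0] at h7
  have h9 : c₀ * (x / (2 * Real.log x)) * (v / Real.log x) ≤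
      c₀ * piD x * ∏ p ∈ PZ x ε₁, (1 - hs f p) := by
    apply mul_le_mul _ h6 (by positivity) (by positivity)
    exact mul_le_mul_of_nonneg_left e3 hc₀.le
  have h10 : 6 * Real.log x * ∑ T ∈ (PZ x β).powerset.filter
      (fun T => ((∏ p ∈ T, p : ℕ) : ℝ) ≤ (x : ℝ) ^ (499 / 1000 + 5 / 10000 : ℝ)),
        Er (Sp x) (G f) (piD x) (hs f) T ≤
      6 * Real.log x * (4 * x / Real.log x ^ 4 + F0 * (x : ℝ) ^ (499 / 1000 + 5 / 10000 : ℝ)) :=
    mul_le_mul_of_nonneg_left h7 (by positivity)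
  have h11 : 6 * Real.log x * (4 * x / Real.log x ^ 4) ≤ c₀ * v / 8 * x / Real.log x ^ 2 := by
    have h12 : 192 / (c₀ * v) ≤ Real.log x := by linarith
    rw [div_le_iff₀ (by positivity)] at h12
    rw [le_div_iff₀ (by positivity)]
    calc 6 * Real.log x * (4 * x / Real.log x ^ 4) * Real.log x ^ 2 = 24 * x / Real.log x := by
          field_simp
          norm_num
      _ ≤ c₀ * v / 8 * x := by
          rw [div_le_iff₀ hl0]
          nlinarith
  have h13 : 6 * Real.log x * (F0 * (x : ℝ) ^ (499 / 1000 + 5 / 10000 : ℝ)) ≤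
      c₀ * v / 8 * x / Real.log x ^ 2 := by
    rw [hexp]
    have h14 : (x : ℝ) ^ (5005 / 10000 : ℝ) = x / (x : ℝ) ^ (4995 / 10000 : ℝ) := by
      rw [eq_div_iff (by positivity), ← Real.rpow_add hL0]
      norm_num
    rw [h14] at e1
    rw [le_div_iff₀ (by positivity)]
    have hp : 0 < (x : ℝ) ^ (4995 / 10000 : ℝ) := by positivity
    calc 6 * Real.log x * (F0 * (x : ℝ) ^ (4995 / 10000 : ℝ)) * Real.log x ^ 2 =
          (48 * F0 * Real.log x ^ 3) * ((x : ℝ) ^ (4995 / 10000 : ℝ) / 8) := by ring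
      _ ≤ (c₀ * v * (x / (x : ℝ) ^ (4995 / 10000 : ℝ))) * ((x : ℝ) ^ (4995 / 10000 : ℝ) / 8) :=
          mul_le_mul_of_nonneg_right e1 (by positivity)
      _ = c₀ * v / 8 * x := by
          field_simp
  have h15 : c₀ * (x / (2 * Real.log x)) * (v / Real.log x) = c₀ * v / 4 * x / Real.log x ^ 2 +
      (c₀ * v / 8 * x / Real.log x ^ 2 + c₀ * v / 8 * x / Real.log x ^ 2) := by
    field_simp
    ring
  rw [h15] at h9
  have h16 : 6 * Real.log x * (4 * x / Real.log x ^ 4 + F0 * (x : ℝ) ^ (499 / 1000 + 5 / 10000 : ℝ)) =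
      6 * Real.log x * (4 * x / Real.log x ^ 4) +
        6 * Real.log x * (F0 * (x : ℝ) ^ (499 / 1000 + 5 / 10000 : ℝ)) := by ring
  rw [h16] at h10
  linarith

end Pool.Agent.Y677.KP
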