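import Pool.Agent.Y677.KP.Sq
import Pool.Agent.Y677.KU.KuhnW

set_option autoImplicit false

/-!
# Kuhn's weighted linear sieve for the values of a polynomial at primes, weight `1 / (m + 1)`
-/

open Polynomial Finset Filter Topology

namespace Pool.Agent.Y677.KP

open Pool.Agent.Y677.KU Pool.Agent.H474R2.PG
open Pool.Agent.TH423.SH.PSUa H343E
open Pool.Agent.H474R2.PG (rho)
open Pool.Agent.W23.DC Pool.Agent.Y882
open Pool.Agent.W123.RU Pool.Agent.W123.RU.Poly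

open Classical in
/-- **Kuhn's weights for one polynomial at primes, weight `1 / (m + 1)`** -/
theorem lower_pm (f : ℤ[X]) (hf : Sys (two f)) (m : ℕ) (hm : 1 ≤ m) (ζ β : ℝ)
    (h4 : 499 / 1000 ≤ 4 * ζ) (h2 : 2 * ζ < 499 / 1000) (hζβ : ζ ≤ β) (hβ : β < 499 / 1000)
    (hζ3 : ζ ≤ 3 * (499 / 1000 - β))
    (hmm : β * ζ ^ m < (499 / 1000 - β) * (499 / 1000 - ζ) ^ m) :
    ∃ c : ℝ, 0 < c ∧ ∀ᶠ x : ℕ in atTop, c * x / Real.log x ^ 2 ≤
      (((Sp x).filter (fun n => (∀ p ∈ PZ x ζ, ¬ p ∣ G f n) ∧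
        ((pr x ζ β).filter (fun q => q ∣ G f n)).card ≤ m)).card : ℝ) := by
  have h0 := eval0 f hf
  have hζ0 : 0 < ζ := by linarith
  have hLL : Real.log β - Real.log (499 / 1000 - β) <
      m * (Real.log (499 / 1000 - ζ) - Real.log ζ) := by
    have e1 : 0 < 499 / 1000 - β := by linarith
    have e2 : 0 < 499 / 1000 - ζ := by linarith
    have e3 : 0 < β := by linarith
    have e4 := Real.log_lt_log (by positivity) hmm
    rw [Real.log_mul e3.ne' (by positivity), Real.log_mul e1.ne' (by positivity), Real.log_pow,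
      Real.log_pow] at e4
    linarith
  obtain ⟨K, hK1, hKb⟩ := rho_bd f (hf.irr 1).ne_zero
  obtain ⟨ε₁, η₁, c₀, hε₁, hε₁ζ, hη₁, hc₀, Y0, hkuhn⟩ := kuhnw K m hm (499 / 1000) ζ β (5 / 10000)
    hζ0 h2 h4 (by norm_num) hζβ hβ hζ3 hLL (by norm_num)
  obtain ⟨Y1, hM⟩ := mer_hs f hf ε₁ β η₁ hε₁ (by linarith) hη₁
  obtain ⟨v, hv, hV⟩ := Vs_ge f hf
  have herr := er_sum f h0 K hK1 hKb 4
  refine ⟨c₀ * v / 4, by positivity, ?_⟩
  obtain ⟨F0, hF0⟩ : ∃ F0 : ℝ, F0 = ((f.eval 0).natAbs : ℝ) := ⟨_, rfl⟩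
  have hF0n : 0 ≤ F0 := by rw [hF0]; positivity
  have ev := log_pow_le 3 (48 * F0) (c₀ * v) (5005 / 10000) (by positivity) (by norm_num)
  have hXr : Tendsto (fun X : ℕ => (X : ℝ)) atTop atTop := tendsto_natCast_atTop_atTop
  have hlog := (Real.tendsto_log_atTop.comp hXr).eventually_ge_atTop (192 / (c₀ * v) + 1)
  filter_upwards [ev, herr, pi_low, hlog, eventually_ge_atTop (max (max Y0 Y1) 3)] with
    x e1 e2 e3 e4 e5
  simp only [Function.comp] at e4
  have hL3 : 3 ≤ x := (le_max_right _ _).trans e5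
  have hLY0 : Y0 ≤ x := (le_max_left _ _).trans ((le_max_left _ _).trans e5)
  have hLY1 : Y1 ≤ x := (le_max_right _ _).trans ((le_max_left _ _).trans e5)
  have hL3r : (3 : ℝ) ≤ x := by exact_mod_cast hL3
  have hL0 : (0 : ℝ) < x := by linarith
  have hl0 : 0 < Real.log x := Real.log_pos (by linarith)
  have hcond : Cond K x ε₁ β η₁ (hs f) := cond_hs f K hKb x ε₁ β η₁ (hM x hLY1)
  have hpi0 : 0 ≤ piD x := le_trans (by positivity) e3
  have h5 := hkuhn x hLY0 (Sp x) (G f) (piD x) (hs f) hpi0 hcond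
  refine le_trans ?_ h5
  have h6 := hV x hL3 ε₁
  have hexp : (499 / 1000 + 5 / 10000 : ℝ) = 4995 / 10000 := by norm_num
  have h7 := e2 (PZ x β) (fun p hp => (mem_PZ.1 hp).2.1)
  rw [← hexp, ← hF0] at h7
  have h9 : c₀ * (x / (2 * Real.log x)) * (v / Real.log x) ≤
      c₀ * piD x * ∏ p ∈ PZ x ε₁, (1 - hs f p) := by
    apply mul_le_mul _ h6 (by positivity) (by positivity)
    exact mul_le_mul_of_nonneg_left e3 hc₀.le
  have h10 : 6 * Real.log x * ∑ T ∈ (PZ x β).powerset.filter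
      (fun T => ((∏ p ∈ T, p : ℕ) : ℝ) ≤ (x : ℝ) ^ (499 / 1000 + 5 / 10000 : ℝ)),
        Er (Sp x) (G f) (piD x) (hs f) T ≤
      6 * Real.log x * (4 * x / Real.log x ^ 4 + F0 * (x : ℝ) ^ (499 / 1000 + 5 / 10000 : ℝ)) :=
    mul_le_mul_of_nonneg_left h7 (by positivity)
  have h11 : 6 * Real.log x * (4 * x / Real.log x ^ 4) ≤ c₀ * v / 8 * x / Real.log x ^ 2 := by
    have h12 : 192 / (c₀ * v) ≤ Real.log x := by linarith
    rw [div_le_iff₀ (by positivity)] at h12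
    rw [le_div_iff₀ (by positivity)]
    calc 6 * Real.log x * (4 * x / Real.log x ^ 4) * Real.log x ^ 2 = 24 * x / Real.log x := by
          field_simp
          norm_num
      _ ≤ c₀ * v / 8 * x := by
          rw [div_le_iff₀ hl0]
          nlinarith
  have h13 : 6 * Real.log x * (F0 * (x : ℝ) ^ (499 / 1000 + 5 / 10000 : ℝ)) ≤
      c₀ * v / 8 * x / Real.log x ^ 2 := by
    rw [hexp]
    have h14 : (x : ℝ) ^ (5005 / 10000 : ℝ) = x / (x : ℝ) ^ (4995 / 10000 : ℝ) := by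
      rw [eq_div_iff (by positivity), ← Real.rpow_add hL0]
      norm_num
    rw [h14] at e1
    rw [le_div_iff₀ (by positivity)]
    have hp : 0 < (x : ℝ) ^ (4995 / 10000 : ℝ) := by positivity
    calc 6 * Real.log x * (F0 * (x : ℝ) ^ (4995 / 10000 : ℝ)) * Real.log x ^ 2 =
          (48 * F0 * Real.log x ^ 3) * ((x : ℝ) ^ (4995 / 10000 : ℝ) / 8) := by ring
      _ ≤ (c₀ * v * (x / (x : ℝ) ^ (4995 / 10000 : ℝ))) * ((x : ℝ) ^ (4995 / 10000 : ℝ) / 8) :=
          mul_le_mul_of_nonneg_right e1 (by positivity)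
      _ = c₀ * v / 8 * x := by
          field_simp
  have h15 : c₀ * (x / (2 * Real.log x)) * (v / Real.log x) = c₀ * v / 4 * x / Real.log x ^ 2 +
      (c₀ * v / 8 * x / Real.log x ^ 2 + c₀ * v / 8 * x / Real.log x ^ 2) := by
    field_simp
    ring
  rw [h15] at h9
  have h16 : 6 * Real.log x * (4 * x / Real.log x ^ 4 + F0 * (x : ℝ) ^ (499 / 1000 + 5 / 10000 : ℝ)) =
      6 * Real.log x * (4 * x / Real.log x ^ 4) +
        6 * Real.log x * (F0 * (x : ℝ) ^ (499 / 1000 + 5 / 10000 : ℝ)) := by ring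
  rw [h16] at h10
  linarith

end Pool.Agent.Y677.KP
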