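import Pool.Agent.Y677.KP.FinM
import Pool.Agent.Y677.RSZ.FinEx

set_option autoImplicit false

/-!
# Almost prime values at primes in narrow progressions, explicit numbers of prime factors
-/

open Polynomial Finset Filter Topology

namespace Pool.Agent.Y677.KP

open Pool.Agent.Y677.KU (G)
open Pool.Agent.W123.RU Pool.Agent.W123.RU.Poly
open Pool.Agent.TH977.PW (N Rough)
open Pool.Agent.Y677.RSZ (InProg Outside narrow exists_prog_dyadic)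

/-- the system of `X` and another polynomial -/
lemma sys_two (f : ℤ[X]) (h1 : Irreducible f) (h2 : 0 < f.natDegree) (h3 : 0 < f.leadingCoeff)
    (h4 : (X : ℤ[X]) ≠ f)
    (h5 : ∀ p : ℕ, p.Prime → ∃ m : ℕ, ¬ p ∣ m ∧ ¬ (p : ℤ) ∣ f.eval (m : ℤ)) : Sys (two f) where
  irr := by
    intro i
    fin_cases i
    · exact irreducible_X
    · exact h1
  deg := by
    intro i
    fin_cases i
    · show 0 < (X : ℤ[X]).natDegree
      rw [natDegree_X]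
      exact one_pos
    · exact h2
  lead := by
    intro i
    fin_cases i
    · show 0 < (X : ℤ[X]).leadingCoeff
      rw [leadingCoeff_X]
      exact one_pos
    · exact h3
  inj := by
    intro i j hij
    fin_cases i <;> fin_cases j
    · rfl
    · exact absurd hij h4
    · exact absurd hij.symm h4
    · rfl
  adm := by
    intro p hp
    obtain ⟨m, hm1, hm2⟩ := h5 p hp
    refine ⟨m, fun i => ?_⟩
    fin_cases i
    · show ¬ (p : ℤ) ∣ (X : ℤ[X]).eval (m : ℤ)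
      rw [eval_X, Int.natCast_dvd_natCast]
      exact hm1
    · exact hm2

open Classical in
/-- **Primes `p` with `f(p)` having at most `r` prime factors in narrow progressions.** -/
theorem narrow_pc (f : ℤ[X]) (hf : Sys (two f)) (r s : ℕ) (hs2 : 2 ≤ s)
    (hcnt : ∃ κ : ℝ, 0 < κ ∧ ∀ᶠ x : ℕ in atTop, κ * x / Real.log x ^ 2 ≤
      (((Ioc x (2 * x)).filter (fun p => p.Prime ∧
        (∀ q : ℕ, q.Prime → q ∣ G f p → (p : ℝ) ^ (1 / (s : ℝ)) < q) ∧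
        (G f p).primeFactorsList.length ≤ r)).card : ℝ)) (R Al : Set ℕ) (hAR : Al ⊆ R)
    (hR : ∀ m ∈ R, (∀ p : ℕ, p.Prime → p ∣ m → (m : ℝ) ^ (1 / (s : ℝ)) < (p : ℝ)) ∧
      ∀ p : ℕ, p.Prime → (p : ℤ) ∣ f.eval (m : ℤ) → (m : ℝ) ^ (1 / (s : ℝ)) < (p : ℝ))
    (hAl : ∀ m : ℕ, m.Prime →
      (∀ p : ℕ, p.Prime → (p : ℤ) ∣ f.eval (m : ℤ) → (m : ℝ) ^ (1 / (s : ℝ)) < (p : ℝ)) →
      (f.eval (m : ℤ)).natAbs.primeFactorsList.length ≤ r → m ∈ Al) :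
    (∃ κ : ℝ, 0 < κ ∧ ∀ᶠ X : ℕ in atTop, κ * X / Real.log X ^ 2 ≤ N Al X (2 * X)) ∧
    (∀ l : ℕ, ∃ B : ℕ, ∀ᶠ X : ℕ in atTop, ∃ u d : ℕ, 1 ≤ d ∧ (d : ℝ) ≤ Real.log X ^ B ∧
        ∀ i < l, u + i * d ∈ Al ∧ X < u + i * d ∧ u + i * d ≤ 2 * X) ∧
    ∀ θ : ℝ, 0 < θ → ∀ l : ℕ, 2 ≤ l → ∀ ε : ℝ, 0 < ε → ∃ B : ℕ, ∀ᶠ X : ℕ in atTop, ∀ Y : ℕ,
      (X : ℝ) ^ θ ≤ Y → Y ≤ X → ∀ A : Set ℕ, A ⊆ R →
        (N (Outside A l (Real.log X ^ B) X (X + Y)) X (X + Y) : ℝ) ≤ ε * Y / Real.log X ^ 2 := by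
  classical
  have hB : ∀ θ : ℝ, 0 < θ → ∀ l : ℕ, 2 ≤ l → ∀ ε : ℝ, 0 < ε → ∃ B : ℕ, ∀ᶠ X : ℕ in atTop,
      ∀ Y : ℕ, (X : ℝ) ^ θ ≤ Y → Y ≤ X → ∀ A : Set ℕ, A ⊆ R →
        (N (Outside A l (Real.log X ^ B) X (X + Y)) X (X + Y) : ℝ) ≤ ε * Y / Real.log X ^ 2 := by
    intro θ hθ l hl ε hε
    obtain ⟨B, hB⟩ := narrow (two f) hf θ hθ s hs2 l hl ε hε
    refine ⟨B, ?_⟩
    filter_upwards [hB] with X hX Y hXY hYX A hA
    have h4 := hX Y hXY hYX A (fun m hm => by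
      obtain ⟨g1, g2⟩ := hR m (hA hm)
      intro i p hp hd
      fin_cases i
      · refine g1 p hp ?_
        have h5 : (p : ℤ) ∣ (Polynomial.X : ℤ[X]).eval (m : ℤ) := hd
        rwa [eval_X, Int.natCast_dvd_natCast] at h5
      · exact g2 p hp hd)
    rwa [Fintype.card_fin] at h4
  have hcount : ∃ κ : ℝ, 0 < κ ∧ ∀ᶠ X : ℕ in atTop, κ * X / Real.log X ^ 2 ≤ N Al X (2 * X) := by
    obtain ⟨κ, hκ, h⟩ := hcnt
    refine ⟨κ, hκ, ?_⟩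
    filter_upwards [h] with X hX
    refine hX.trans ?_
    have hsub : ((Ioc X (2 * X)).filter (fun p => p.Prime ∧
        (∀ q : ℕ, q.Prime → q ∣ G f p → (p : ℝ) ^ (1 / (s : ℝ)) < q) ∧
        (G f p).primeFactorsList.length ≤ r)).card ≤ N Al X (2 * X) := by
      unfold Pool.Agent.TH977.PW.N
      apply card_le_card
      intro m hm
      rw [mem_filter] at hm ⊢
      refine ⟨hm.1, hAl m hm.2.1 (fun p hp hd => hm.2.2.1 p hp ?_) hm.2.2.2⟩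
      exact (Pool.Agent.Y677.KU.dvd_G f p m).2 hd
    exact_mod_cast hsub
  exact ⟨hcount, exists_prog_dyadic hAR 2 (le_refl (1 : ℝ)) hcount (hB 1 one_pos), hB⟩

open Classical in
/-- linear polynomials: three prime factors -/
theorem count_lin (f : ℤ[X]) (hf : Sys (two f)) (hd : f.natDegree = 1) :
    ∃ κ : ℝ, 0 < κ ∧ ∀ᶠ x : ℕ in atTop, κ * x / Real.log x ^ 2 ≤
      (((Ioc x (2 * x)).filter (fun p => p.Prime ∧
        (∀ q : ℕ, q.Prime → q ∣ G f p → (p : ℝ) ^ (1 / ((5 : ℕ) : ℝ)) < q) ∧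
        (G f p).primeFactorsList.length ≤ 3)).card : ℝ) :=
  prime_poly_m f hf 3 5 1 le_rfl (by norm_num) (2005 / 10000) (298 / 1000) (by norm_num)
    (by norm_num) (by norm_num) (by norm_num) (by norm_num) (by norm_num) (by norm_num)
    (by norm_num) (by rw [hd]; norm_num)

open Classical in
/-- quadratic polynomials: five prime factors -/
theorem count_quad (f : ℤ[X]) (hf : Sys (two f)) (hd : f.natDegree = 2) :
    ∃ κ : ℝ, 0 < κ ∧ ∀ᶠ x : ℕ in atTop, κ * x / Real.log x ^ 2 ≤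
      (((Ioc x (2 * x)).filter (fun p => p.Prime ∧
        (∀ q : ℕ, q.Prime → q ∣ G f p → (p : ℝ) ^ (1 / ((7 : ℕ) : ℝ)) < q) ∧
        (G f p).primeFactorsList.length ≤ 5)).card : ℝ) :=
  prime_poly_m f hf 5 7 2 (by norm_num) (by norm_num) (143 / 1000) (4295 / 10000) (by norm_num)
    (by norm_num) (by norm_num) (by norm_num) (by norm_num) (by norm_num) (by norm_num)
    (by norm_num) (by rw [hd]; norm_num)

open Classical in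
/-- everything together -/
theorem all_p (f : ℤ[X]) (hf : Sys (two f)) (r s₀ : ℕ) (hs2 : 2 ≤ s₀)
    (hcnt : ∃ κ : ℝ, 0 < κ ∧ ∀ᶠ x : ℕ in atTop, κ * x / Real.log x ^ 2 ≤
      (((Ioc x (2 * x)).filter (fun p => p.Prime ∧
        (∀ q : ℕ, q.Prime → q ∣ G f p → (p : ℝ) ^ (1 / (s₀ : ℝ)) < q) ∧
        (G f p).primeFactorsList.length ≤ r)).card : ℝ)) (R : ℕ → Set ℕ) (P : Set ℕ)
    (hPR : P ⊆ R s₀)
    (hR : ∀ s : ℕ, 2 ≤ s → ∀ m ∈ R s,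
      (∀ p : ℕ, p.Prime → p ∣ m → (m : ℝ) ^ (1 / (s : ℝ)) < (p : ℝ)) ∧
      ∀ p : ℕ, p.Prime → (p : ℤ) ∣ f.eval (m : ℤ) → (m : ℝ) ^ (1 / (s : ℝ)) < (p : ℝ))
    (hAl : ∀ m : ℕ, m.Prime →
      (∀ p : ℕ, p.Prime → (p : ℤ) ∣ f.eval (m : ℤ) → (m : ℝ) ^ (1 / (s₀ : ℝ)) < (p : ℝ)) →
      (f.eval (m : ℤ)).natAbs.primeFactorsList.length ≤ r → m ∈ P) :
    (∃ κ : ℝ, 0 < κ ∧ ∀ᶠ X : ℕ in atTop, κ * X / Real.log X ^ 2 ≤ N P X (2 * X)) ∧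
    (∀ l : ℕ, ∃ B : ℕ, ∀ᶠ X : ℕ in atTop, ∃ u d : ℕ, 1 ≤ d ∧ (d : ℝ) ≤ Real.log X ^ B ∧
        ∀ i < l, u + i * d ∈ P ∧ X < u + i * d ∧ u + i * d ≤ 2 * X) ∧
    ∀ s : ℕ, 2 ≤ s → ∀ θ : ℝ, 0 < θ → ∀ l : ℕ, 2 ≤ l → ∀ ε : ℝ, 0 < ε → ∃ B : ℕ,
      ∀ᶠ X : ℕ in atTop, ∀ Y : ℕ, (X : ℝ) ^ θ ≤ Y → Y ≤ X → ∀ A : Set ℕ, A ⊆ R s →
        (N (Outside A l (Real.log X ^ B) X (X + Y)) X (X + Y) : ℝ) ≤ ε * Y / Real.log X ^ 2 := by
  have h1 := narrow_pc f hf r s₀ hs2 hcnt (R s₀) P hPR (hR s₀ hs2) hAl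
  refine ⟨h1.1, h1.2.1, fun s hs θ hθ l hl ε hε => ?_⟩
  obtain ⟨B, hB⟩ := narrow (two f) hf θ hθ s hs l hl ε hε
  refine ⟨B, ?_⟩
  filter_upwards [hB] with X hX Y hXY hYX A hA
  have h4 := hX Y hXY hYX A (fun m hm => by
    obtain ⟨g1, g2⟩ := hR s hs m (hA hm)
    intro i p hp hd
    fin_cases i
    · refine g1 p hp ?_
      have h5 : (p : ℤ) ∣ (Polynomial.X : ℤ[X]).eval (m : ℤ) := hd
      rwa [eval_X, Int.natCast_dvd_natCast] at h5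
    · exact g2 p hp hd)
  rwa [Fintype.card_fin] at h4

end Pool.Agent.Y677.KP
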