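import Pool.Agent.Y677.KP.Lower

set_option autoImplicit false

/-!
# Squares of medium primes
-/

open Polynomial Finset Filter Topology

namespace Pool.Agent.Y677.KP

open Pool.Agent.Y677.KU
open Pool.Agent.W23.DC Pool.Agent.Y882
open Pool.Agent.H474R2.PG (rho)

open Classical in
/-- few values are divisible by the square of a medium prime, with `(log L) ^ 2` -/
theorem sq_few2 (f : ℤ[X]) (hf : Irreducible f) (hd : 0 < f.natDegree) (ζ β c : ℝ) (hζ : 0 < ζ)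
    (hβ : β < 1) (hc : 0 < c) :
    ∀ᶠ L : ℕ in atTop, ∀ X : ℕ,
      (((Ioc X (X + L)).filter (fun n => ∃ q ∈ pr L ζ β, q ^ 2 ∣ G f n)).card : ℝ) ≤
        c * L / Real.log L ^ 2 := by
  obtain ⟨N0, hN0⟩ := rho_sq_le f hf hd
  obtain ⟨K, hK1, hK⟩ := rho_bd f hf.ne_zero
  have e1 := log_pow_le 3 (3 * (2 * K)) c ζ hc hζ
  have e2 := log_pow_le 3 (2 * K) c (1 - β) hc (by linarith)
  have e3 : ∀ᶠ L : ℕ in atTop, (N0 : ℝ) + 1 ≤ (L : ℝ) ^ ζ :=
    (tendsto_natCast_atTop_atTop (R := ℝ)).eventually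
      ((tendsto_rpow_atTop hζ).eventually_ge_atTop _)
  filter_upwards [e1, e2, e3, eventually_ge_atTop 3] with L e1 e2 e3 hL3 X
  have hL3r : (3 : ℝ) ≤ L := by exact_mod_cast hL3
  have hL0 : (0 : ℝ) < L := by linarith
  have hl1 : 1 ≤ Real.log L := by
    rw [Real.le_log_iff_exp_le (by linarith)]
    linarith [Real.exp_one_lt_d9]
  have hl0 : 0 < Real.log L := by linarith
  -- each prime
  have hq : ∀ q ∈ pr L ζ β, q.Prime ∧ (L : ℝ) ^ ζ ≤ q ∧ (q : ℝ) < (L : ℝ) ^ β ∧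
      (((Ioc X (X + L)).filter (fun n => q ^ 2 ∣ G f n)).card : ℝ) ≤ K * (L / (L : ℝ) ^ ζ * (1 / q)) + K := by
    intro q hq
    rw [mem_pr'] at hq
    obtain ⟨hq1, hqp, hq3, hq4⟩ := hq
    have hq5 := tt_mul_log L (by omega) q hqp.pos
    have hL1 : (1 : ℝ) < L := by linarith
    have hq6 : (L : ℝ) ^ ζ ≤ q := by
      rw [hq5]
      exact Real.rpow_le_rpow_of_exponent_le hL1.le hq3
    have hq7 : (q : ℝ) < (L : ℝ) ^ β := by
      rw [hq5]
      exact Real.rpow_lt_rpow_of_exponent_lt hL1 hq4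
    refine ⟨hqp, hq6, hq7, ?_⟩
    have hNq : N0 < q := by
      have : (N0 : ℝ) < q := by linarith
      exact_mod_cast this
    have hr : (rho f (q ^ 2) : ℝ) ≤ K := by
      exact_mod_cast (hN0 q hqp hNq).trans (hK q hqp)
    have h1 := cnt_bound f X L (q ^ 2) (pow_pos hqp.pos 2)
    have h2 : ((Ioc X (X + L)).filter (fun n => q ^ 2 ∣ G f n)) =
        (Ioc X (X + L)).filter (fun n : ℕ => ((q ^ 2 : ℕ) : ℤ) ∣ f.eval (n : ℤ)) := by
      apply filter_congr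
      intro n _
      exact dvd_G f _ n
    rw [h2]
    have h3 := (abs_le.1 h1).2
    have hq0 : (0 : ℝ) < q := by exact_mod_cast hqp.pos
    have h4 : (L : ℝ) * ((rho f (q ^ 2) : ℝ) / ((q ^ 2 : ℕ) : ℝ)) ≤ K * (L / (L : ℝ) ^ ζ * (1 / q)) := by
      push_cast
      calc (L : ℝ) * ((rho f (q ^ 2) : ℝ) / (q : ℝ) ^ 2) ≤ L * (K / (q : ℝ) ^ 2) := by gcongr
        _ = (K : ℝ) * ((L : ℝ) / q * (1 / q)) := by
            field_simp
        _ ≤ (K : ℝ) * (L / (L : ℝ) ^ ζ * (1 / q)) := by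
            gcongr
    have h5 : (((Ioc X (X + L)).filter (fun n : ℕ => ((q ^ 2 : ℕ) : ℤ) ∣ f.eval (n : ℤ))).card : ℝ) ≤
        L * ((rho f (q ^ 2) : ℝ) / ((q ^ 2 : ℕ) : ℝ)) + rho f (q ^ 2) := by
      linarith
    exact h5.trans (add_le_add h4 hr)
  have hcover : (Ioc X (X + L)).filter (fun n => ∃ q ∈ pr L ζ β, q ^ 2 ∣ G f n) ⊆
      (pr L ζ β).biUnion (fun q => (Ioc X (X + L)).filter (fun n => q ^ 2 ∣ G f n)) := by
    intro n hn
    rw [mem_filter] at hn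
    obtain ⟨h1, q, h2, h3⟩ := hn
    rw [mem_biUnion]
    exact ⟨q, h2, mem_filter.2 ⟨h1, h3⟩⟩
  have h1 : (((Ioc X (X + L)).filter (fun n => ∃ q ∈ pr L ζ β, q ^ 2 ∣ G f n)).card : ℝ) ≤
      ∑ q ∈ pr L ζ β, (K * (L / (L : ℝ) ^ ζ * (1 / q)) + K) := by
    have h2 := (card_le_card hcover).trans card_biUnion_le
    have h3 : (((Ioc X (X + L)).filter (fun n => ∃ q ∈ pr L ζ β, q ^ 2 ∣ G f n)).card : ℝ) ≤
        ∑ q ∈ pr L ζ β, (((Ioc X (X + L)).filter (fun n => q ^ 2 ∣ G f n)).card : ℝ) := by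
      exact_mod_cast h2
    exact h3.trans (sum_le_sum fun q hqm => (hq q hqm).2.2.2)
  refine h1.trans ?_
  rw [sum_add_distrib, ← mul_sum, ← mul_sum, sum_const, nsmul_eq_mul]
  have h2 : ∑ q ∈ pr L ζ β, 1 / (q : ℝ) ≤ 3 * Real.log L := by
    have h3 : ∑ q ∈ pr L ζ β, 1 / (q : ℝ) ≤ ∑ n ∈ Ico 1 (L + 1), 1 / (n : ℝ) := by
      apply sum_le_sum_of_subset_of_nonneg
      · intro q hqm
        have := (mem_pr'.1 hqm).1
        rw [mem_Ico]
        omega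
      · intro n _ _
        positivity
    have h4 := harm_le 1 (L + 1) le_rfl (by omega)
    have h5 : Real.log ((L + 1 : ℕ) : ℝ) ≤ 2 * Real.log L := by
      rw [← Real.log_rpow hL0]
      apply Real.log_le_log (by positivity)
      push_cast
      rw [Real.rpow_two]
      nlinarith
    linarith
  have h3 : ((pr L ζ β).card : ℝ) ≤ (L : ℝ) ^ β := by
    have h4 : (pr L ζ β).card ≤ (Icc 1 ⌊(L : ℝ) ^ β⌋₊).card := by
      apply card_le_card
      intro q hqm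
      have h5 := hq q hqm
      rw [mem_Icc]
      exact ⟨h5.1.one_le, Nat.le_floor h5.2.2.1.le⟩
    rw [Nat.card_Icc, Nat.add_sub_cancel] at h4
    have h5 : ((pr L ζ β).card : ℝ) ≤ (⌊(L : ℝ) ^ β⌋₊ : ℝ) := by exact_mod_cast h4
    exact h5.trans (Nat.floor_le (by positivity))
  have hK0 : (0 : ℝ) ≤ K := Nat.cast_nonneg _
  have hLζ : 0 < (L : ℝ) ^ ζ := by positivity
  have h4 : K * (L / (L : ℝ) ^ ζ * ∑ q ∈ pr L ζ β, 1 / (q : ℝ)) ≤ c / 2 * L / Real.log L ^ 2 := by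
    calc (K : ℝ) * (L / (L : ℝ) ^ ζ * ∑ q ∈ pr L ζ β, 1 / (q : ℝ)) ≤
          (K : ℝ) * (L / (L : ℝ) ^ ζ * (3 * Real.log L)) := by gcongr
      _ = (3 * (2 * K) * Real.log L ^ 3) * (L / (2 * (L : ℝ) ^ ζ * Real.log L ^ 2)) := by
          field_simp
      _ ≤ (c * (L : ℝ) ^ ζ) * (L / (2 * (L : ℝ) ^ ζ * Real.log L ^ 2)) := by gcongr
      _ = _ := by field_simp
  have h5 : ((pr L ζ β).card : ℝ) * K ≤ c / 2 * L / Real.log L ^ 2 := by
    have h6 : (L : ℝ) ^ (1 - β) = L / (L : ℝ) ^ β := by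
      rw [Real.rpow_sub hL0, Real.rpow_one]
    rw [h6] at e2
    have hLβ : 0 < (L : ℝ) ^ β := by positivity
    rw [le_div_iff₀ (by positivity)]
    calc ((pr L ζ β).card : ℝ) * K * Real.log L ^ 2 ≤ (L : ℝ) ^ β * K * Real.log L ^ 2 := by gcongr
      _ ≤ (L : ℝ) ^ β * K * Real.log L ^ 3 := by
          apply mul_le_mul_of_nonneg_left _ (by positivity)
          have : 0 ≤ Real.log L ^ 2 := by positivity
          nlinarith
      _ = (2 * K * Real.log L ^ 3) * ((L : ℝ) ^ β / 2) := by ring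
      _ ≤ (c * (L / (L : ℝ) ^ β)) * ((L : ℝ) ^ β / 2) := by gcongr
      _ = _ := by field_simp
  have h6 : c * L / Real.log L ^ 2 = c / 2 * L / Real.log L ^ 2 + c / 2 * L / Real.log L ^ 2 := by
    field_simp
    ring
  rw [h6]
  exact add_le_add h4 h5

end Pool.Agent.Y677.KP
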