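import Pool.Agent.Y677.KP.Er

set_option autoImplicit false

/-!
# The sieve product and Mertens' formula for polynomials at primes
-/

open Polynomial Finset Filter Topology

namespace Pool.Agent.Y677.KP

open Pool.Agent.Y677.KU Pool.Agent.H474R2.PG
open Pool.Agent.TH423.SH.PSUa H343E
open Pool.Agent.H474R2.PG (rho)
open Pool.Agent.W23.DC Pool.Agent.Y882
open Pool.Agent.W123.RU Pool.Agent.W123.RU.Poly
open Pool.Agent.W123.RP Pool.Agent.H373R2.T7

/-- the system `x`, `f` -/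
noncomputable def two (f : ℤ[X]) : Fin 2 → ℤ[X] := ![X, f]

lemma eval0 (f : ℤ[X]) (hf : Sys (two f)) : f.eval 0 ≠ 0 := by
  intro h
  have h1 : (X : ℤ[X]) ∣ f := by
    rw [X_dvd_iff, coeff_zero_eq_eval_zero]
    exact h
  obtain ⟨g, hg⟩ := h1
  have hirr : Irreducible f := hf.irr 1
  rcases hirr.isUnit_or_isUnit hg with h2 | h2
  · exact not_isUnit_X h2
  · rw [Polynomial.isUnit_iff] at h2
    obtain ⟨u, hu, hug⟩ := h2
    have hlead : 0 < f.leadingCoeff := hf.lead 1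
    rw [hg, ← hug, leadingCoeff_mul, leadingCoeff_X, one_mul, leadingCoeff_C] at hlead
    have hu1 : u = 1 := by
      rcases Int.isUnit_iff.1 hu with h | h
      · exact h
      · rw [h] at hlead
        norm_num at hlead
    have hfX : f = X := by rw [hg, ← hug, hu1, C_1, mul_one]
    have h3 : two f 0 = two f 1 := by
      show (X : ℤ[X]) = f
      exact hfX.symm
    exact absurd (hf.inj h3) (by decide)

lemma nu_eq (f : ℤ[X]) (p : ℕ) (hp : p.Prime) : nuB (Q (two f)) p = 1 + rs f p := by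
  classical
  have hQ : ∀ c : ℕ, Q (two f) p c ↔ (p ∣ c ∨ (p : ℤ) ∣ f.eval (c : ℤ)) := by
    intro c
    unfold Q
    rw [Fin.exists_fin_two]
    show (p : ℤ) ∣ (X : ℤ[X]).eval (c : ℤ) ∨ (p : ℤ) ∣ f.eval (c : ℤ) ↔ _
    rw [eval_X, Int.natCast_dvd_natCast]
  have h1 : (range p).filter (fun r => Q (two f) p r) =
      insert 0 ((range p).filter (fun c : ℕ => c.Coprime p ∧ (p : ℤ) ∣ f.eval (c : ℤ))) := by
    ext c
    rw [mem_filter, mem_insert, mem_filter, mem_range, hQ]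
    constructor
    · rintro ⟨h2, h3⟩
      by_cases hc : c = 0
      · exact Or.inl hc
      right
      have hnd : ¬ p ∣ c := fun h => by
        have := Nat.le_of_dvd (Nat.pos_of_ne_zero hc) h
        omega
      refine ⟨h2, ?_, ?_⟩
      · rw [Nat.coprime_comm]
        exact (Nat.Prime.coprime_iff_not_dvd hp).2 hnd
      · rcases h3 with h3 | h3
        · exact absurd h3 hnd
        · exact h3
    · rintro (rfl | ⟨h2, h3, h4⟩)
      · exact ⟨hp.pos, Or.inl (dvd_zero _)⟩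
      · exact ⟨h2, Or.inr h4⟩
  unfold nuB rs
  rw [h1, card_insert_of_notMem, add_comm]
  rw [mem_filter]
  rintro ⟨_, h2, _⟩
  rw [Nat.coprime_zero_left] at h2
  exact hp.one_lt.ne' h2

lemma rs_le_sub (f : ℤ[X]) (p : ℕ) (hp : p.Prime) : rs f p ≤ p - 1 := by
  classical
  unfold rs
  have h1 : (range p).filter (fun c : ℕ => c.Coprime p ∧ (p : ℤ) ∣ f.eval (c : ℤ)) ⊆ (range p).erase 0 := by
    intro c hc
    rw [mem_filter] at hc
    rw [mem_erase]
    refine ⟨?_, hc.1⟩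
    rintro rfl
    have h2 := hc.2.1
    rw [Nat.coprime_zero_left] at h2
    exact hp.one_lt.ne' h2
  have h2 := card_le_card h1
  rwa [card_erase_of_mem (mem_range.2 hp.pos), card_range] at h2

lemma hs_bounds (f : ℤ[X]) (p : ℕ) (hp : p.Prime) : 0 ≤ hs f p ∧ hs f p ≤ 1 := by
  have h2 : (2 : ℝ) ≤ p := by exact_mod_cast hp.two_le
  have h1 := rs_le_sub f p hp
  have h3 : (rs f p : ℝ) ≤ (p : ℝ) - 1 := by
    have h4 : ((p - 1 : ℕ) : ℝ) = (p : ℝ) - 1 := by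
      rw [Nat.cast_sub hp.one_le, Nat.cast_one]
    rw [← h4]
    exact_mod_cast h1
  unfold hs
  constructor
  · exact div_nonneg (Nat.cast_nonneg _) (by linarith)
  · rw [div_le_one (by linarith)]
    exact h3

/-- the sieve product -/
lemma Vs_ge (f : ℤ[X]) (hf : Sys (two f)) : ∃ v : ℝ, 0 < v ∧ ∀ L : ℕ, 3 ≤ L →
    ∀ ε₁ : ℝ, v / Real.log L ≤ ∏ p ∈ PZ L ε₁, (1 - hs f p) := by
  classical
  obtain ⟨v, Cv, hv, hCv, hV⟩ := V_bounds (two f) hf
  obtain ⟨c, C, hc, hC, hVz⟩ := Vz_bounds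
  refine ⟨v / C, by positivity, fun L hL ε₁ => ?_⟩
  have h1 := (hV L hL).1
  have h2 := (hVz L (by omega)).2
  rw [Fintype.card_fin] at h1
  have hL3 : (3 : ℝ) ≤ L := by exact_mod_cast hL
  have hl0 : 0 < Real.log L := Real.log_pos (by linarith)
  have hfac : ∀ p : ℕ, p.Prime → 0 ≤ 1 - hs f p ∧ 1 - hs f p ≤ 1 := by
    intro p hp
    obtain ⟨h3, h4⟩ := hs_bounds f p hp
    exact ⟨by linarith, by linarith⟩
  have hsub : PZ L ε₁ ⊆ pz L := by
    intro p hp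
    rw [mem_PZ] at hp
    exact mem_pz.2 ⟨hp.1.2, hp.2.1⟩
  have hprod : Vq (Q (two f)) L = (∏ p ∈ pz L, (1 - hs f p)) * Vz L := by
    unfold Vq Vz
    rw [← prod_mul_distrib]
    apply prod_congr rfl
    intro p hp
    have hpp := (mem_pz.1 hp).2
    have hp2 : (2 : ℝ) ≤ p := by exact_mod_cast hpp.two_le
    rw [nu_eq f p hpp]
    unfold hs
    push_cast
    have e1 : (p : ℝ) ≠ 0 := by linarith
    have e2 : (p : ℝ) - 1 ≠ 0 := by linarith
    field_simp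
    ring
  rw [hprod] at h1
  have h3 : ∏ p ∈ pz L, (1 - hs f p) ≤ ∏ p ∈ PZ L ε₁, (1 - hs f p) := by
    rw [← prod_sdiff hsub]
    have e2 : ∏ p ∈ pz L \ PZ L ε₁, (1 - hs f p) ≤ 1 := by
      apply Finset.prod_le_one
      · intro p hp
        exact (hfac p (mem_pz.1 (mem_sdiff.1 hp).1).2).1
      · intro p hp
        exact (hfac p (mem_pz.1 (mem_sdiff.1 hp).1).2).2
    have e3 : 0 ≤ ∏ p ∈ PZ L ε₁, (1 - hs f p) := by
      apply Finset.prod_nonneg
      intro p hp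
      exact (hfac p (mem_PZ.1 hp).2.1).1
    calc _ ≤ 1 * ∏ p ∈ PZ L ε₁, (1 - hs f p) := mul_le_mul_of_nonneg_right e2 e3
      _ = _ := one_mul _
  refine le_trans ?_ h3
  have h4 : 0 ≤ ∏ p ∈ pz L, (1 - hs f p) := by
    apply Finset.prod_nonneg
    intro p hp
    exact (hfac p (mem_pz.1 hp).2).1
  have h5 : v / Real.log L ^ 2 ≤ (∏ p ∈ pz L, (1 - hs f p)) * (C / Real.log L) :=
    h1.trans (mul_le_mul_of_nonneg_left h2 h4)
  have h6 : v / C / Real.log L = v / Real.log L ^ 2 / (C / Real.log L) := by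
    field_simp
  rw [h6, div_le_iff₀ (by positivity)]
  exact h5

/-- **Mertens' formula in windows** -/
lemma mer_hs (f : ℤ[X]) (hf : Sys (two f)) (ε₁ β η : ℝ) (hε₁ : 0 < ε₁) (hβ : β ≤ 1) (hη : 0 < η) :
    ∃ Y0 : ℕ, ∀ Y : ℕ, Y0 ≤ Y → Mer (pr Y ε₁ β) (tt Y) (hs f) ε₁ β η := by
  classical
  have h0 := eval0 f hf
  obtain ⟨K, hK1, hK⟩ := rho_bd f (hf.irr 1).ne_zero
  obtain ⟨Y1, hM⟩ := mer_of_avg (fun p => (rho f p : ℝ)) (avg_rho f (hf.irr 1) (hf.deg 1)) ε₁ β (η / 2)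
    hε₁ hβ (by positivity)
  have hXr : Tendsto (fun X : ℕ => (X : ℝ)) atTop atTop := tendsto_natCast_atTop_atTop
  have e1 := ((tendsto_rpow_atTop hε₁).comp hXr).eventually_ge_atTop
    ((f.eval 0).natAbs + 2 + 8 * K / η : ℝ)
  obtain ⟨Y2, hY2⟩ := eventually_atTop.1 (e1.and (eventually_ge_atTop 3))
  refine ⟨max Y1 Y2, fun Y hY => ?_⟩
  obtain ⟨g1, g2⟩ := hY2 Y ((le_max_right _ _).trans hY)
  simp only [Function.comp] at g1
  have hM1 := hM Y ((le_max_left _ _).trans hY)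
  have hY3 : (3 : ℝ) ≤ Y := by exact_mod_cast g2
  have hKη : (0 : ℝ) ≤ 8 * K / η := by positivity
  -- large primes
  have hbig : ∀ p ∈ pr Y ε₁ β, p.Prime ∧ (Y : ℝ) ^ ε₁ ≤ p := by
    intro p hp
    rw [mem_pr'] at hp
    obtain ⟨_, hpp, hp3, _⟩ := hp
    refine ⟨hpp, ?_⟩
    rw [tt_mul_log Y (by omega) p hpp.pos]
    exact Real.rpow_le_rpow_of_exponent_le (by linarith) hp3
  have hdiff : ∀ p ∈ pr Y ε₁ β, |hs f p - (rho f p : ℝ) / p| ≤ 2 * K / (p : ℝ) ^ 2 := by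
    intro p hp
    obtain ⟨hpp, hpY⟩ := hbig p hp
    have hp0 : ((f.eval 0).natAbs : ℝ) + 2 ≤ p := by linarith
    have hp2 : (2 : ℝ) ≤ p := by exact_mod_cast hpp.two_le
    have hnd : ¬ (p : ℤ) ∣ f.eval 0 := by
      intro h
      have h1 : p ∣ (f.eval 0).natAbs := Int.natCast_dvd.1 h
      have h2 := Nat.le_of_dvd (Int.natAbs_pos.2 h0) h1
      have h3 : (p : ℝ) ≤ (f.eval 0).natAbs := by exact_mod_cast h2
      linarith
    have hrs : rs f p = rho f p := by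
      unfold rs rho
      congr 1
      apply filter_congr
      intro c hc
      rw [mem_range] at hc
      constructor
      · rintro ⟨_, h⟩
        exact h
      · intro h
        refine ⟨?_, h⟩
        rw [Nat.coprime_comm]
        refine (Nat.Prime.coprime_iff_not_dvd hpp).2 fun hd => ?_
        have hc0 : c = 0 := Nat.eq_zero_of_dvd_of_lt hd hc
        rw [hc0] at h
        exact hnd (by simpa using h)
    unfold hs
    rw [hrs]
    have hr0 : (0 : ℝ) ≤ rho f p := Nat.cast_nonneg _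
    have hrK : (rho f p : ℝ) ≤ K := by exact_mod_cast hK p hpp
    have e2 : (rho f p : ℝ) / ((p : ℝ) - 1) - (rho f p : ℝ) / p = rho f p / (p * ((p : ℝ) - 1)) := by
      have e3 : (p : ℝ) ≠ 0 := by linarith
      have e4 : (p : ℝ) - 1 ≠ 0 := by linarith
      field_simp
      ring
    rw [e2, abs_of_nonneg (div_nonneg hr0 (mul_nonneg (by linarith) (by linarith)))]
    rw [div_le_div_iff₀ (mul_pos (by linarith) (by linarith)) (by positivity)]
    have e5 : (p : ℝ) ^ 2 ≤ 2 * (p * ((p : ℝ) - 1)) := by nlinarith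
    calc (rho f p : ℝ) * (p : ℝ) ^ 2 ≤ K * (2 * (p * ((p : ℝ) - 1))) :=
          mul_le_mul hrK e5 (by positivity) (Nat.cast_nonneg _)
      _ = 2 * K * (p * ((p : ℝ) - 1)) := by ring
  have hsum : ∑ p ∈ pr Y ε₁ β, 2 * (K : ℝ) / (p : ℝ) ^ 2 ≤ η / 2 := by
    obtain ⟨m, hm⟩ : ∃ m : ℕ, m = ⌈(Y : ℝ) ^ ε₁⌉₊ := ⟨_, rfl⟩
    have hm2 : (Y : ℝ) ^ ε₁ ≤ m := by
      rw [hm]
      exact Nat.le_ceil _
    have hF0 : (0 : ℝ) ≤ (f.eval 0).natAbs := Nat.cast_nonneg _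
    have hm3 : (2 : ℝ) ≤ m := by linarith
    have hsub : pr Y ε₁ β ⊆ Ioc (m - 1) Y := by
      intro p hp
      obtain ⟨hpp, hpY⟩ := hbig p hp
      have h1 : m ≤ p := by
        rw [hm, Nat.ceil_le]
        exact hpY
      rw [mem_Ioc]
      have h2 := (mem_pr'.1 hp).1.2
      have h3 := hpp.pos
      omega
    have h1 : ∑ p ∈ pr Y ε₁ β, 2 * (K : ℝ) / (p : ℝ) ^ 2 ≤
        ∑ p ∈ Ioc (m - 1) Y, 2 * (K : ℝ) / (p : ℝ) ^ 2 :=
      sum_le_sum_of_subset_of_nonneg hsub fun p _ _ => by positivity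
    have h2 : ∑ p ∈ Ioc (m - 1) Y, 2 * (K : ℝ) / (p : ℝ) ^ 2 = 2 * K * ∑ p ∈ Ioc (m - 1) Y, ((p : ℝ) ^ 2)⁻¹ := by
      rw [mul_sum]
      apply sum_congr rfl
      intro p _
      rw [div_eq_mul_inv]
    have hm1 : m - 1 ≠ 0 := by
      have : 2 ≤ m := by exact_mod_cast hm3
      omega
    have h3 : ∑ p ∈ Ioc (m - 1) Y, ((p : ℝ) ^ 2)⁻¹ ≤ 1 / ((m - 1 : ℕ) : ℝ) := by
      by_cases hle : m - 1 ≤ Y
      · have h4 := sum_Ioc_inv_sq_le_sub (α := ℝ) hm1 hle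
        have h5 : (0 : ℝ) ≤ (Y : ℝ)⁻¹ := by positivity
        rw [one_div]
        linarith
      · rw [Ioc_eq_empty (by omega), sum_empty]
        positivity
    have h6 : ((m - 1 : ℕ) : ℝ) = (m : ℝ) - 1 := by
      rw [Nat.cast_sub (by
        have : 2 ≤ m := by exact_mod_cast hm3
        omega), Nat.cast_one]
    rw [h6] at h3
    refine h1.trans ?_
    rw [h2]
    have h7 : 4 * K / η ≤ (m : ℝ) - 1 := by
      have e6 : 8 * (K : ℝ) / η = 2 * (4 * K / η) := by ring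
      have e7 : (0 : ℝ) ≤ 4 * K / η := by positivity
      linarith
    have hK0 : (0 : ℝ) ≤ 2 * K := by positivity
    calc 2 * (K : ℝ) * ∑ p ∈ Ioc (m - 1) Y, ((p : ℝ) ^ 2)⁻¹ ≤ 2 * K * (1 / ((m : ℝ) - 1)) :=
          mul_le_mul_of_nonneg_left h3 hK0
      _ ≤ η / 2 := by
          rw [mul_one_div, div_le_iff₀ (by linarith)]
          rw [div_le_iff₀ hη] at h7
          nlinarith
  intro a b ha hab hb
  have h1 := hM1 a b ha hab hb
  have h2 : |∑ p ∈ (pr Y ε₁ β).filter (fun p => a ≤ tt Y p ∧ tt Y p < b), hs f p -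
      ∑ p ∈ (pr Y ε₁ β).filter (fun p => a ≤ tt Y p ∧ tt Y p < b), (rho f p : ℝ) / p| ≤ η / 2 := by
    rw [← sum_sub_distrib]
    refine (abs_sum_le_sum_abs _ _).trans ?_
    refine (sum_le_sum_of_subset_of_nonneg (filter_subset _ _) fun p _ _ => abs_nonneg _).trans ?_
    exact (sum_le_sum hdiff).trans hsum
  have h3 : ∑ p ∈ (pr Y ε₁ β).filter (fun p => a ≤ tt Y p ∧ tt Y p < b), hs f p - Real.log (b / a) =
      (∑ p ∈ (pr Y ε₁ β).filter (fun p => a ≤ tt Y p ∧ tt Y p < b), hs f p -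
        ∑ p ∈ (pr Y ε₁ β).filter (fun p => a ≤ tt Y p ∧ tt Y p < b), (rho f p : ℝ) / p) +
      (∑ p ∈ (pr Y ε₁ β).filter (fun p => a ≤ tt Y p ∧ tt Y p < b), (rho f p : ℝ) / p -
        Real.log (b / a)) := by ring
  rw [h3]
  refine (abs_add_le _ _).trans ?_
  linarith

end Pool.Agent.Y677.KP
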